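import Mathlib

set_option autoImplicit false

open FirstOrder FirstOrder.Language

namespace Pool.Agent.Helper64.Canon

/-! ### Structures -/

/-- `D` is finitely bounded: for some finite family of finite structures, a finite structure embeds
into `D` iff no member of the family embeds into it. -/
def FinitelyBounded (L : FirstOrder.Language.{0, 0}) (D : Type) [L.Structure D] : Prop :=
  ∃ (ι : Type) (_ : Finite ι) (B : ι → Type) (_ : ∀ i, L.Structure (B i))
    (_ : ∀ i, Finite (B i)), ∀ (A : Type) [L.Structure A] [Finite A],
      Nonempty (A ↪[L] D) ↔ ∀ i, IsEmpty (B i ↪[L] A)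

/-- One of the relations of `D` is a linear order (strict or not). -/
def Ordered (L : FirstOrder.Language.{0, 0}) (D : Type) [L.Structure D] : Prop :=
  ∃ (R : L.Relations 2) (_ : LinearOrder D), (∀ x y : D, Structure.RelMap R ![x, y] ↔ x ≤ y) ∨
    ∀ x y : D, Structure.RelMap R ![x, y] ↔ x < y

/-- The class of finite structures embeddable into `D` has the Ramsey property: for all members
`A`, `B` and every number `r` of colours there is a member `C` such that for every colouring of the
substructures of `C` there is a copy of `B` in `C` (the range of an embedding) all of whose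
substructures isomorphic to `A` have the same colour. -/
def Ramsey (L : FirstOrder.Language.{0, 0}) (D : Type) [L.Structure D] : Prop :=
  ∀ (A B : Type) [L.Structure A] [L.Structure B] [Finite A] [Finite B],
    Nonempty (A ↪[L] D) → Nonempty (B ↪[L] D) → ∀ r : ℕ,
      ∃ (C : Type) (_ : L.Structure C) (_ : Finite C), Nonempty (C ↪[L] D) ∧
        ∀ χ : L.Substructure C → Fin r, ∃ (g : B ↪[L] C) (col : Fin r),
          ∀ S : L.Substructure C, Nonempty (A ≃[L] S) → (S : Set C) ⊆ Set.range g → χ S = col

/-- `D` is a countable finitely bounded ordered homogeneous Ramsey structure with finite relational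
signature. -/
def IsTemplate (L : FirstOrder.Language.{0, 0}) (D : Type) [L.Structure D] : Prop :=
  L.IsRelational ∧ Finite (Σ n, L.Relations n) ∧ Countable D ∧ L.IsUltrahomogeneous D ∧
    FinitelyBounded L D ∧ Ordered L D ∧ Ramsey L D

/-- `r` is the maximal arity of the signature. -/
def IsMaxArity (L : FirstOrder.Language.{0, 0}) (r : ℕ) : Prop :=
  Nonempty (L.Relations r) ∧ ∀ m, Nonempty (L.Relations m) → m ≤ r

/-- A relation of some finite arity on `D`. -/
abbrev Rel (D : Type) : Type := Σ m : ℕ, Set (Fin m → D)

/-- `Γ` (given by its set of relations) is a reduct of `D`: all its relations are first-order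
definable without parameters. -/
def IsReduct (L : FirstOrder.Language.{0, 0}) {D : Type} [L.Structure D] (Γ : Set (Rel D)) : Prop :=
  ∀ ρ ∈ Γ, (∅ : Set D).Definable L ρ.2

/-- The operation `f` preserves the relation `ρ`. -/
def Preserves {D : Type} {k m : ℕ} (f : (Fin k → D) → D) (ρ : Set (Fin m → D)) : Prop :=
  ∀ t : Fin k → Fin m → D, (∀ i, t i ∈ ρ) → (fun x => f fun i => t i x) ∈ ρ

/-- `f` is a polymorphism of `Γ`. -/
def IsPolymorphism {D : Type} {k : ℕ} (Γ : Set (Rel D)) (f : (Fin k → D) → D) : Prop :=
  ∀ ρ ∈ Γ, Preserves f ρ.2

/-! ### Types, canonical functions, type clones -/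

section Types

variable (L : FirstOrder.Language.{0, 0}) {D : Type} [L.Structure D] {n : ℕ} (c : Fin n → D)

/-- The tuples `a` and `b` have the same type over `c`. -/
def SameType {m : ℕ} (a b : Fin m → D) : Prop :=
  ∀ φ : L.Formula (Fin m ⊕ Fin n), φ.Realize (Sum.elim a c) ↔ φ.Realize (Sum.elim b c)

/-- The equivalence relation of having the same type over `c`. -/
def typeSetoid (m : ℕ) : Setoid (Fin m → D) where
  r := SameType L c
  iseqv := ⟨fun _ _ => Iff.rfl, fun h φ => (h φ).symm, fun h h' φ => (h φ).trans (h' φ)⟩

/-- The set of types of `m`-tuples over `c`. -/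
abbrev TypeSet (m : ℕ) : Type := Quotient (typeSetoid L c m)

/-- `f` is canonical for `(D, c)`. -/
def Canonical {k : ℕ} (f : (Fin k → D) → D) : Prop :=
  ∀ (m : ℕ) (a b : Fin k → Fin m → D), (∀ i, SameType L c (a i) (b i)) →
    SameType L c (fun x => f fun i => a i x) (fun x => f fun i => b i x)

/-- The operation `F` on the types of `r`-tuples over `c` belongs to the type clone of the
polymorphism clone of `Γ`: it is induced by a canonical polymorphism of `Γ`. -/
def InTypeClone (r : ℕ) (Γ : Set (Rel D)) {k : ℕ}
    (F : (Fin k → TypeSet L c r) → TypeSet L c r) : Prop :=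
  ∃ f : (Fin k → D) → D, IsPolymorphism Γ f ∧ Canonical L c f ∧
    ∀ a : Fin k → Fin r → D,
      F (fun i => Quotient.mk (typeSetoid L c r) (a i)) =
        Quotient.mk (typeSetoid L c r) (fun x => f fun i => a i x)

/-- The type clone has a minion homomorphism to the projections: each of its operations can be
assigned one of its argument places in such a way that identifying, permuting and adding arguments
is respected. In other words, the projections satisfy every finite set of height 1 identities that
the type clone satisfies. -/
def ProjectsTypeClone (r : ℕ) (Γ : Set (Rel D)) : Prop :=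
  ∃ ξ : ∀ k : ℕ, {F : (Fin k → TypeSet L c r) → TypeSet L c r // InTypeClone L c r Γ F} → Fin k,
    ∀ (k l : ℕ) (π : Fin k → Fin l)
      (F : {F : (Fin k → TypeSet L c r) → TypeSet L c r // InTypeClone L c r Γ F})
      (G : {G : (Fin l → TypeSet L c r) → TypeSet L c r // InTypeClone L c r Γ G}),
      (∀ t, G.1 t = F.1 fun i => t (π i)) → ξ l G = π (ξ k F)

end Types

/-! ### Constraint satisfaction problems and polynomial time -/

/-- Instances over a signature with `s` relation symbols of arities `ar`: lists of constraints, a
constraint being a relation symbol with a tuple of variables. Variables are natural numbers. -/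
abbrev Instance (s : ℕ) (ar : Fin s → ℕ) : Type := List (Σ i : Fin s, (Fin (ar i) → ℕ))

/-- The satisfiable instances of the structure with domain `D` and relations `rel`. -/
def CSP {D : Type} {s : ℕ} {ar : Fin s → ℕ} (rel : ∀ i, Set (Fin (ar i) → D)) :
    Set (Instance s ar) :=
  {I | ∃ h : ℕ → D, ∀ x ∈ I, (fun j => h (x.2 j)) ∈ rel x.1}

/-- The word coding a constraint over the alphabet `Fin 3`: numbers are written in unary with the
letter `0`, each number is followed by the letter `1`, and the constraint ends with the
letter `2`. -/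
def encodeConstraint {s : ℕ} {ar : Fin s → ℕ} (x : Σ i : Fin s, (Fin (ar i) → ℕ)) :
    List (Fin 3) :=
  (List.replicate x.1 0 ++ [1]) ++
    (List.ofFn fun j => List.replicate (x.2 j) 0 ++ [1]).flatten ++ [2]

/-- The word coding an instance. -/
def encodeInstance {s : ℕ} {ar : Fin s → ℕ} (I : Instance s ar) : List (Fin 3) :=
  (I.map encodeConstraint).flatten

/-- A set of instances is in P: some Turing machine decides it in polynomial time. -/
def InP {s : ℕ} {ar : Fin s → ℕ} (A : Set (Instance s ar)) : Prop :=
  Nonempty (Turing.TM2ComputableInPolyTime (encodeInstance (s := s) (ar := ar))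
    Computability.encodeBool (fun I => (open Classical in decide (I ∈ A))))

/-- `CSP(Γ)` is tractable: for all finitely many relations of `Γ` the CSP is in P. -/
def Tractable {D : Type} (Γ : Set (Rel D)) : Prop :=
  ∀ (s : ℕ) (ar : Fin s → ℕ) (rel : ∀ i, Set (Fin (ar i) → D)),
    (∀ i, (⟨ar i, rel i⟩ : Rel D) ∈ Γ) → InP (CSP rel)

/-- The type clone of the polymorphism clone of `Γ` over `c` corresponds to a tractable CSP. -/
def TypeCloneTractable (L : FirstOrder.Language.{0, 0}) {D : Type} [L.Structure D] {n : ℕ} (c : Fin n → D)
    (r : ℕ) (Γ : Set (Rel D)) : Prop :=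
  ∀ (s : ℕ) (ar : Fin s → ℕ) (rel : ∀ i, Set (Fin (ar i) → TypeSet L c r)),
    (∀ (k : ℕ), 0 < k → ∀ F : (Fin k → TypeSet L c r) → TypeSet L c r,
      InTypeClone L c r Γ F → ∀ i, Preserves F (rel i)) → InP (CSP rel)

/-- The CSP of not-all-equal 3-satisfiability (without negations). -/
def NAE : Set (Instance 1 fun _ => 3) :=
  CSP (D := Bool) fun _ => {t | ¬ (t 0 = t 1 ∧ t 1 = t 2)}

end Pool.Agent.Helper64.Canon
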