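import Mathlib
import Pool.Agent.Helper64.CanonDefs

set_option autoImplicit false

open FirstOrder FirstOrder.Language

namespace Pool.Agent.Helper64.Canon

local instance ratStructure : Language.order.Structure ℚ := orderStructure ℚ

local instance ratOrdered : Language.order.OrderedStructure ℚ := ⟨fun _ => Iff.rfl⟩

theorem rat_ultrahomogeneous : Language.order.IsUltrahomogeneous ℚ :=
  (isFraisseLimit_of_countable_nonempty_dlo ℚ).ultrahomogeneous

/-- Finite tuples with the same order pattern are conjugate under an automorphism. -/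
theorem exists_automorphism {ι : Type} [Finite ι] (u u' : ι → ℚ)
    (h : ∀ i j, u i ≤ u j ↔ u' i ≤ u' j) :
    ∃ g : ℚ ≃[Language.order] ℚ, ∀ i, g (u i) = u' i := by
  classical
  let S : Language.order.Substructure ℚ := Substructure.closure Language.order (Set.range u)
  have hS : ∀ x, x ∈ S ↔ x ∈ Set.range u := by
    intro x
    exact Substructure.mem_closure_iff_of_isRelational Language.order (Set.range u) x
  have hSfg : S.FG := Substructure.fg_closure (Set.finite_range u)
  choose p hp using fun x : S => (hS x.1).1 x.2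
  let f0 : S ↪o ℚ :=
    { toFun := fun x => u' (p x)
      inj' := by
        intro x y hxy
        have h1 : u' (p x) = u' (p y) := hxy
        apply Subtype.ext
        rw [← hp x, ← hp y]
        exact le_antisymm ((h _ _).2 h1.le) ((h _ _).2 h1.ge)
      map_rel_iff' := by
        intro x y
        show u' (p x) ≤ u' (p y) ↔ x ≤ y
        rw [← h, hp x, hp y]
        rfl }
  let f : S ↪[Language.order] ℚ := StrongHomClass.toEmbedding f0
  obtain ⟨g, hg⟩ := rat_ultrahomogeneous S hSfg f
  refine ⟨g, fun i => ?_⟩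
  have hi : u i ∈ S := (hS _).2 ⟨i, rfl⟩
  have h1 : f ⟨u i, hi⟩ = g (u i) := by
    rw [hg]
    rfl
  rw [← h1]
  show u' (p ⟨u i, hi⟩) = u' i
  have h2 := hp ⟨u i, hi⟩
  simp only at h2
  exact le_antisymm ((h _ _).1 h2.le) ((h _ _).1 h2.ge)

theorem sameType_of_pattern {n m : ℕ} (c : Fin n → ℚ) (a b : Fin m → ℚ)
    (h1 : ∀ i j, a i ≤ a j ↔ b i ≤ b j) (h2 : ∀ i j, a i ≤ c j ↔ b i ≤ c j)
    (h3 : ∀ i j, c i ≤ a j ↔ c i ≤ b j) : SameType Language.order c a b := by
  obtain ⟨g, hg⟩ := exists_automorphism (Sum.elim a c) (Sum.elim b c) (by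
    rintro (i | i) (j | j)
    · exact h1 i j
    · exact h2 i j
    · exact h3 i j
    · exact Iff.rfl)
  intro φ
  have h4 : (Sum.elim b c : Fin m ⊕ Fin n → ℚ) = g ∘ Sum.elim a c := by
    funext i
    exact (hg i).symm
  rw [h4]
  exact (StrongHomClass.realize_formula g φ).symm

theorem le_iff_of_sameType {n m : ℕ} {c : Fin n → ℚ} {a b : Fin m → ℚ}
    (h : SameType Language.order c a b) (i j : Fin m) : a i ≤ a j ↔ b i ≤ b j := by
  have := h (leSymb.formula₂ (Term.var (Sum.inl i)) (Term.var (Sum.inl j)))
  rw [Formula.realize_rel₂, Formula.realize_rel₂] at this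
  simpa using this

end Pool.Agent.Helper64.Canon
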