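import Mathlib

set_option autoImplicit false

namespace Pool.Agent.Helper64.Canon

/-! Boolean operations preserving the not-all-equal relation are projections up to negation. -/

theorem essentially_unary {k : ℕ} (G : (Fin k → Bool) → Bool)
    (hG : ∀ a b c : Fin k → Bool, (∀ i, ¬ (a i = b i ∧ b i = c i)) → ¬ (G a = G b ∧ G b = G c)) :
    ∃ (i : Fin k) (e : Bool), ∀ b, G b = xor (b i) e := by
  classical
  have hneg : ∀ b, G (fun i => !b i) = !(G b) := by
    intro b
    have h := hG b b (fun i => !b i) (by intro i; cases b i <;> simp)
    have h' : G b ≠ G (fun i => !b i) := fun h'' => h ⟨rfl, h''⟩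
    cases h1 : G b <;> cases h2 : G (fun i => !b i) <;> simp_all
  have hand : ∀ a b g, G a = g → G b = g → G (fun i => a i && b i) = g := by
    intro a b g ha hb
    by_contra hne
    have h := hG a b (fun i => !(a i && b i)) (by intro i; cases a i <;> cases b i <;> simp)
    apply h
    refine ⟨ha.trans hb.symm, ?_⟩
    rw [hneg (fun i => a i && b i), hb]
    cases h1 : G (fun i => a i && b i) <;> cases g <;> simp_all
  let g := G fun _ => true
  obtain ⟨a, ha, hmin⟩ := Finset.exists_min_image
    (Finset.univ.filter fun b : Fin k → Bool => G b = g)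
    (fun b => (Finset.univ.filter fun i => b i = true).card)
    ⟨fun _ => true, Finset.mem_filter.2 ⟨Finset.mem_univ _, rfl⟩⟩
  simp only [Finset.mem_filter, Finset.mem_univ, true_and] at ha hmin
  have hsub : ∀ b, G b = g → ∀ i, a i = true → b i = true := by
    intro b hb i hi
    by_contra hbi
    have h1 := hmin _ (hand a b g ha hb)
    have h2 : (Finset.univ.filter fun j => (a j && b j) = true) ⊂
        Finset.univ.filter fun j => a j = true := by
      rw [Finset.ssubset_iff_of_subset]
      · exact ⟨i, by simp [hi], by simp [hi, hbi]⟩
      · intro j hj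
        simp only [Finset.mem_filter, Finset.mem_univ, true_and, Bool.and_eq_true] at hj ⊢
        exact hj.1
    have h3 := Finset.card_lt_card h2
    omega
  have hex : ∃ i, a i = true := by
    by_contra hcon
    push Not at hcon
    have h1 : a = fun i => !(fun _ => true : Fin k → Bool) i := by
      funext i
      have := hcon i
      simpa using this
    have h2 := hneg (fun _ => true)
    rw [← h1, ha] at h2
    cases hg : g <;> simp_all [g]
  obtain ⟨i, hi⟩ := hex
  refine ⟨i, !g, fun b => ?_⟩
  by_cases hb : G b = g
  · rw [hsub b hb i hi, hb]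
    simp
  · have h1 : G (fun i => !b i) = g := by
      rw [hneg]
      cases h1 : G b <;> cases hg : g <;> simp_all
    have h2 := hsub _ h1 i hi
    have h3 : b i = false := by simpa using h2
    rw [h3]
    cases h1 : G b <;> cases hg : g <;> simp_all

theorem unary_unique {k : ℕ} {i j : Fin k} {e e' : Bool}
    (h : ∀ b : Fin k → Bool, xor (b i) e = xor (b j) e') : i = j := by
  have h1 := h fun _ => false
  have h2 := h fun x => decide (x = i)
  simp only [Bool.false_xor] at h1
  subst h1
  simp only [decide_true] at h2
  by_contra hij
  rw [decide_eq_false (Ne.symm hij)] at h2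
  cases e <;> simp at h2

end Pool.Agent.Helper64.Canon
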