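import Mathlib
import Pool.Agent.Helper64.CanonTypes
import Pool.Agent.Helper64.CanonUnary

set_option autoImplicit false

open FirstOrder FirstOrder.Language

namespace Pool.Agent.Helper64.Canon

attribute [local instance] ratStructure ratOrdered

section Hard

variable {n : ℕ} (c : Fin n → ℚ)

/-- A bound for the constants. -/
theorem exists_bound : ∃ M : ℚ, ∀ j, c j < M := by
  obtain ⟨M, hM⟩ := (Set.finite_range c).bddAbove
  exact ⟨M + 1, fun j => lt_of_le_of_lt (hM ⟨j, rfl⟩) (lt_add_one M)⟩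

variable {c}

theorem sameType_pair {M : ℚ} (hM : ∀ j, c j < M) {x y x' y' : ℚ} (hx : M < x) (hy : M < y)
    (hx' : M < x') (hy' : M < y') (h : x < y ↔ x' < y') (h' : y < x ↔ y' < x') :
    SameType Language.order c ![x, y] ![x', y'] := by
  apply sameType_of_pattern
  · intro i j
    fin_cases i <;> fin_cases j
    · simp
    · simp only [Fin.zero_eta, Fin.mk_one, Matrix.cons_val_zero, Matrix.cons_val_one]
      rw [← not_lt, ← not_lt, h']
    · simp only [Fin.zero_eta, Fin.mk_one, Matrix.cons_val_zero, Matrix.cons_val_one]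
      rw [← not_lt, ← not_lt, h]
    · simp
  · intro i j
    have h1 := hM j
    have hx1 : (![x, y] : Fin 2 → ℚ) 0 = x := rfl
    have hx2 : (![x, y] : Fin 2 → ℚ) 1 = y := rfl
    have hx3 : (![x', y'] : Fin 2 → ℚ) 0 = x' := rfl
    have hx4 : (![x', y'] : Fin 2 → ℚ) 1 = y' := rfl
    fin_cases i
    · simp only [Fin.zero_eta, hx1, hx3]
      constructor <;> intro h2 <;> exfalso <;> linarith
    · simp only [Fin.mk_one, hx2, hx4]
      constructor <;> intro h2 <;> exfalso <;> linarith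
  · intro i j
    have h1 := hM i
    have hx1 : (![x, y] : Fin 2 → ℚ) 0 = x := rfl
    have hx2 : (![x, y] : Fin 2 → ℚ) 1 = y := rfl
    have hx3 : (![x', y'] : Fin 2 → ℚ) 0 = x' := rfl
    have hx4 : (![x', y'] : Fin 2 → ℚ) 1 = y' := rfl
    fin_cases j
    · simp only [Fin.zero_eta, hx1, hx3]
      constructor <;> intro h2 <;> linarith
    · simp only [Fin.mk_one, hx2, hx4]
      constructor <;> intro h2 <;> linarith

theorem lt_iff_of_sameType {x y x' y' : ℚ}
    (h : SameType Language.order c ![x, y] ![x', y']) : x < y ↔ x' < y' := by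
  have h1 := le_iff_of_sameType h 1 0
  simp only [Matrix.cons_val_zero, Matrix.cons_val_one] at h1
  rw [← not_le, ← not_le, h1]

theorem gt_iff_of_sameType {x y x' y' : ℚ}
    (h : SameType Language.order c ![x, y] ![x', y']) : y < x ↔ y' < x' := by
  have h1 := le_iff_of_sameType h 0 1
  simp only [Matrix.cons_val_zero, Matrix.cons_val_one] at h1
  rw [← not_le, ← not_le, h1]

variable (c)

/-- Operations (of possibly infinite arity) that are canonical on pairs and preserve `R`. -/
def Good (R : ℚ → ℚ → Prop) {ι : Type} (f : (ι → ℚ) → ℚ) : Prop :=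
  (∀ x y x' y' : ι → ℚ, (∀ i, SameType Language.order c ![x i, y i] ![x' i, y' i]) →
    SameType Language.order c ![f x, f y] ![f x', f y']) ∧
  ∀ x y : ι → ℚ, (∀ i, R (x i) (y i)) → R (f x) (f y)

variable {c}

theorem Good.ne_of_ne {ι : Type} {f : (ι → ℚ) → ℚ} {R : ℚ → ℚ → Prop}
    (hR : R = (· ≠ ·) ∨ R = (· < ·)) (hf : Good c R f) {M : ℚ} (hM : ∀ j, c j < M)
    {x y : ι → ℚ} (hx : ∀ i, M < x i) (hy : ∀ i, M < y i) (hxy : ∀ i, x i ≠ y i) :
    f x ≠ f y := by
  rcases hR with rfl | rfl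
  · exact hf.2 x y hxy
  · intro heq
    let z : ι → ℚ := fun i => if x i < y i then (x i + y i) / 2 else x i + 1
    have hxz : ∀ i, x i < z i := by
      intro i
      by_cases h : x i < y i
      · simp only [z, if_pos h]
        linarith
      · simp only [z, if_neg h]
        linarith
    have hz : ∀ i, M < z i := fun i => (hx i).trans (hxz i)
    have h1 : ∀ i, SameType Language.order c ![y i, z i] ![y i, x i] := by
      intro i
      apply sameType_pair hM (hy i) (hz i) (hy i) (hx i)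
      · by_cases h : x i < y i
        · simp only [z, if_pos h]
          constructor <;> intro h' <;> linarith
        · have h2 : y i < x i := lt_of_le_of_ne (not_lt.1 h) (hxy i).symm
          simp only [z, if_neg h]
          constructor <;> intro h' <;> linarith
      · by_cases h : x i < y i
        · simp only [z, if_pos h]
          constructor <;> intro h' <;> linarith
        · have h2 : y i < x i := lt_of_le_of_ne (not_lt.1 h) (hxy i).symm
          simp only [z, if_neg h]
          constructor <;> intro h' <;> linarith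
    have h2 := hf.1 y z y x h1
    have h3 := lt_iff_of_sameType h2
    have h4 := gt_iff_of_sameType h2
    have h5 : f x < f z := hf.2 x z hxz
    rw [heq] at h5 h3 h4
    rw [h3] at h5
    exact lt_irrefl _ h5

variable (c)

/-- The cyclic triples of types. -/
def cyclic (R : ℚ → ℚ → Prop) (M : ℚ) : Set (Fin 3 → TypeSet Language.order c 2) :=
  {t | ∃ (ι : Type) (f : (ι → ℚ) → ℚ) (x y z : ι → ℚ), Good c R f ∧
    (∀ i, M < x i ∧ M < y i ∧ M < z i ∧ x i ≠ y i ∧ y i ≠ z i ∧ z i ≠ x i) ∧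
    t 0 = Quotient.mk (typeSetoid Language.order c 2) ![f x, f y] ∧
    t 1 = Quotient.mk (typeSetoid Language.order c 2) ![f y, f z] ∧
    t 2 = Quotient.mk (typeSetoid Language.order c 2) ![f z, f x]}

variable {c}

theorem cyclic_preserved {R : ℚ → ℚ → Prop} {M : ℚ} {Γ : Set (Rel ℚ)}
    (hΓ : (⟨2, {t | R (t 0) (t 1)}⟩ : Rel ℚ) ∈ Γ) {k : ℕ}
    {F : (Fin k → TypeSet Language.order c 2) → TypeSet Language.order c 2}
    (hF : InTypeClone Language.order c 2 Γ F) : Preserves F (cyclic c R M) := by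
  obtain ⟨f0, hpol, hcan, hind⟩ := hF
  intro t ht
  choose ι f x y z hgood hxyz h0 h1 h2 using ht
  let g : ((Σ i, ι i) → ℚ) → ℚ := fun w => f0 fun i => f i fun j => w ⟨i, j⟩
  refine ⟨Σ i, ι i, g, fun p => x p.1 p.2, fun p => y p.1 p.2, fun p => z p.1 p.2, ?_, ?_,
    ?_, ?_, ?_⟩
  · constructor
    · intro u v u' v' huv
      have h3 := hcan 2 (fun i => ![f i fun j => u ⟨i, j⟩, f i fun j => v ⟨i, j⟩])
        (fun i => ![f i fun j => u' ⟨i, j⟩, f i fun j => v' ⟨i, j⟩])
        (fun i => (hgood i).1 _ _ _ _ fun j => huv ⟨i, j⟩)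
      have h4 : ∀ u v : (Σ i, ι i) → ℚ, (fun s : Fin 2 => f0 fun i =>
          (![f i fun j => u ⟨i, j⟩, f i fun j => v ⟨i, j⟩] : Fin 2 → ℚ) s) = ![g u, g v] := by
        intro u v
        funext s
        fin_cases s <;> rfl
      rw [h4, h4] at h3
      exact h3
    · intro u v huv
      have h3 := hpol _ hΓ (fun i => ![f i fun j => u ⟨i, j⟩, f i fun j => v ⟨i, j⟩])
        (fun i => (hgood i).2 _ _ fun j => huv ⟨i, j⟩)
      exact h3
  · intro p
    exact hxyz p.1 p.2
  · show F (fun i => t i 0) = _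
    have : (fun i => t i 0) = fun i => Quotient.mk (typeSetoid Language.order c 2)
        ![f i (x i), f i (y i)] := funext h0
    rw [this, hind]
    congr 1
    funext s
    fin_cases s <;> rfl
  · show F (fun i => t i 1) = _
    have : (fun i => t i 1) = fun i => Quotient.mk (typeSetoid Language.order c 2)
        ![f i (y i), f i (z i)] := funext h1
    rw [this, hind]
    congr 1
    funext s
    fin_cases s <;> rfl
  · show F (fun i => t i 2) = _
    have : (fun i => t i 2) = fun i => Quotient.mk (typeSetoid Language.order c 2)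
        ![f i (z i), f i (x i)] := funext h2
    rw [this, hind]
    congr 1
    funext s
    fin_cases s <;> rfl

variable (c)

/-- The sign of a type of pairs. -/
noncomputable def signOf : TypeSet Language.order c 2 → Bool :=
  Quotient.lift (fun a : Fin 2 → ℚ => decide (a 0 < a 1)) (by
    intro a b hab
    have h1 := le_iff_of_sameType hab 1 0
    have h2 : (a 0 < a 1) ↔ (b 0 < b 1) := by
      rw [← not_le, ← not_le, h1]
    simp only [h2])

theorem nae_of_cyclic {R : ℚ → ℚ → Prop} (hR : R = (· ≠ ·) ∨ R = (· < ·)) {M : ℚ}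
    (hM : ∀ j, c j < M) {t : Fin 3 → TypeSet Language.order c 2} (ht : t ∈ cyclic c R M) :
    ¬ (signOf c (t 0) = signOf c (t 1) ∧ signOf c (t 1) = signOf c (t 2)) := by
  obtain ⟨ι, f, x, y, z, hgood, hxyz, h0, h1, h2⟩ := ht
  have hfxy : f x ≠ f y := hgood.ne_of_ne hR hM (fun i => (hxyz i).1)
    (fun i => (hxyz i).2.1) (fun i => (hxyz i).2.2.2.1)
  have hfyz : f y ≠ f z := hgood.ne_of_ne hR hM (fun i => (hxyz i).2.1)
    (fun i => (hxyz i).2.2.1) (fun i => (hxyz i).2.2.2.2.1)
  have hfzx : f z ≠ f x := hgood.ne_of_ne hR hM (fun i => (hxyz i).2.2.1)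
    (fun i => (hxyz i).1) (fun i => (hxyz i).2.2.2.2.2)
  rw [h0, h1, h2]
  show ¬ (decide (f x < f y) = decide (f y < f z) ∧ decide (f y < f z) = decide (f z < f x))
  simp only [decide_eq_decide]
  rintro ⟨e1, e2⟩
  rcases lt_or_gt_of_ne hfxy with l1 | l1
  · have l2 := e1.1 l1
    have l3 := e2.1 l2
    exact lt_irrefl _ (l1.trans (l2.trans l3))
  · have l2 : ¬ f y < f z := fun h => lt_asymm l1 (e1.2 h)
    have l3 : ¬ f z < f x := fun h => l2 (e2.2 h)
    have l2' : f z < f y := lt_of_le_of_ne (not_lt.1 l2) hfyz.symm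
    have l3' : f x < f z := lt_of_le_of_ne (not_lt.1 l3) hfzx.symm
    exact lt_irrefl _ (l1.trans (l3'.trans l2'))

/-- the type of an increasing (`true`) or decreasing (`false`) pair above `M` -/
def pairType (M : ℚ) (b : Bool) : TypeSet Language.order c 2 :=
  Quotient.mk (typeSetoid Language.order c 2) (if b then ![M + 1, M + 2] else ![M + 2, M + 1])

theorem signOf_pairType (M : ℚ) (b : Bool) : signOf c (pairType c M b) = b := by
  cases b
  · show decide (M + 2 < M + 1) = false
    rw [decide_eq_false_iff_not]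
    linarith
  · show decide (M + 1 < M + 2) = true
    rw [decide_eq_true_iff]
    linarith

theorem pairType_eq {M : ℚ} (hM : ∀ j, c j < M) {x y : ℚ} (hx : M < x) (hy : M < y)
    (hxy : x ≠ y) {b : Bool} (hb : b = decide (x < y)) :
    pairType c M b = Quotient.mk (typeSetoid Language.order c 2) ![x, y] := by
  apply Quotient.sound
  rcases lt_or_gt_of_ne hxy with l | l
  · have : b = true := by rw [hb]; simpa using l
    subst this
    apply sameType_pair hM (by linarith) (by linarith) hx hy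
    · constructor <;> intro _ <;> linarith
    · constructor <;> intro _ <;> linarith
  · have : b = false := by rw [hb]; simpa using l.le
    subst this
    apply sameType_pair hM (by linarith) (by linarith) hx hy
    · constructor <;> intro _ <;> linarith
    · constructor <;> intro _ <;> linarith

theorem cyclic_of_nae {R : ℚ → ℚ → Prop} {M : ℚ} (hM : ∀ j, c j < M) (b : Fin 3 → Bool)
    (hb : ¬ (b 0 = b 1 ∧ b 1 = b 2)) : (fun j => pairType c M (b j)) ∈ cyclic c R M := by
  have hproj : Good c R (fun w : Unit → ℚ => w ()) := by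
    refine ⟨fun x y x' y' hxy => hxy (), fun x y hxy => hxy ()⟩
  have key : ∀ x y z : ℚ, M < x → M < y → M < z → x ≠ y → y ≠ z → z ≠ x →
      (b 0 = decide (x < y)) → (b 1 = decide (y < z)) → (b 2 = decide (z < x)) →
      (fun j => pairType c M (b j)) ∈ cyclic c R M := by
    intro x y z hx hy hz hxy hyz hzx e0 e1 e2
    exact ⟨Unit, fun w => w (), fun _ => x, fun _ => y, fun _ => z, hproj,
      fun _ => ⟨hx, hy, hz, hxy, hyz, hzx⟩, pairType_eq c hM hx hy hxy e0,
      pairType_eq c hM hy hz hyz e1, pairType_eq c hM hz hx hzx e2⟩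
  cases e0 : b 0 <;> cases e1 : b 1 <;> cases e2 : b 2
  · exact absurd ⟨e0.trans e1.symm, e1.trans e2.symm⟩ hb
  · refine key (M + 3) (M + 2) (M + 1) ?_ ?_ ?_ ?_ ?_ ?_ ?_ ?_ ?_ <;> norm_num [e0, e1, e2]
  · refine key (M + 2) (M + 1) (M + 3) ?_ ?_ ?_ ?_ ?_ ?_ ?_ ?_ ?_ <;> norm_num [e0, e1, e2]
  · refine key (M + 3) (M + 1) (M + 2) ?_ ?_ ?_ ?_ ?_ ?_ ?_ ?_ ?_ <;> norm_num [e0, e1, e2]
  · refine key (M + 1) (M + 3) (M + 2) ?_ ?_ ?_ ?_ ?_ ?_ ?_ ?_ ?_ <;> norm_num [e0, e1, e2]
  · refine key (M + 2) (M + 3) (M + 1) ?_ ?_ ?_ ?_ ?_ ?_ ?_ ?_ ?_ <;> norm_num [e0, e1, e2]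
  · refine key (M + 1) (M + 2) (M + 3) ?_ ?_ ?_ ?_ ?_ ?_ ?_ ?_ ?_ <;> norm_num [e0, e1, e2]
  · exact absurd ⟨e0.trans e1.symm, e1.trans e2.symm⟩ hb

theorem csp_cyclic {R : ℚ → ℚ → Prop} (hR : R = (· ≠ ·) ∨ R = (· < ·)) {M : ℚ}
    (hM : ∀ j, c j < M) :
    CSP (s := 1) (ar := fun _ => 3) (fun _ => cyclic c R M) = NAE := by
  ext I
  constructor
  · rintro ⟨h, hh⟩
    exact ⟨fun v => signOf c (h v), fun p hp => nae_of_cyclic c hR hM (hh p hp)⟩
  · rintro ⟨h, hh⟩
    exact ⟨fun v => pairType c M (h v), fun p hp =>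
      cyclic_of_nae c hM (fun j => h (p.2 j)) (hh p hp)⟩

/-- If some type clone of a reduct containing `≠` or `<` corresponds to a tractable CSP then
not-all-equal 3-satisfiability is in P. -/
theorem nae_of_typeCloneTractable {Γ : Set (Rel ℚ)}
    (hΓ : (⟨2, {t | t 0 ≠ t 1}⟩ : Rel ℚ) ∈ Γ ∨ (⟨2, {t | t 0 < t 1}⟩ : Rel ℚ) ∈ Γ)
    (h : TypeCloneTractable Language.order c 2 Γ) : InP NAE := by
  obtain ⟨M, hM⟩ := exists_bound c
  rcases hΓ with hΓ | hΓ
  · have := h 1 (fun _ => 3) (fun _ => cyclic c (· ≠ ·) M)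
      (fun k _ F hF _ => cyclic_preserved hΓ hF)
    rwa [csp_cyclic c (Or.inl rfl) hM] at this
  · have := h 1 (fun _ => 3) (fun _ => cyclic c (· < ·) M)
      (fun k _ F hF _ => cyclic_preserved hΓ hF)
    rwa [csp_cyclic c (Or.inr rfl) hM] at this

/-- The operations of the type clone act on the signs of pairs above the constants as projections,
up to negation. -/
theorem exists_place {Γ : Set (Rel ℚ)}
    (hΓ : (⟨2, {t | t 0 ≠ t 1}⟩ : Rel ℚ) ∈ Γ ∨ (⟨2, {t | t 0 < t 1}⟩ : Rel ℚ) ∈ Γ) {M : ℚ}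
    (hM : ∀ j, c j < M) {k : ℕ} {F : (Fin k → TypeSet Language.order c 2) →
      TypeSet Language.order c 2} (hF : InTypeClone Language.order c 2 Γ F) :
    ∃ (i : Fin k) (e : Bool), ∀ b : Fin k → Bool,
      signOf c (F fun j => pairType c M (b j)) = xor (b i) e := by
  obtain ⟨R, hR, hpres⟩ : ∃ R : ℚ → ℚ → Prop, (R = (· ≠ ·) ∨ R = (· < ·)) ∧
      Preserves F (cyclic c R M) := by
    rcases hΓ with hΓ | hΓ
    · exact ⟨(· ≠ ·), Or.inl rfl, cyclic_preserved hΓ hF⟩
    · exact ⟨(· < ·), Or.inr rfl, cyclic_preserved hΓ hF⟩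
  apply essentially_unary
  intro u v w huvw
  have h := hpres (fun i => fun j => pairType c M (![u i, v i, w i] j)) (fun i =>
    cyclic_of_nae c hM ![u i, v i, w i] (huvw i))
  exact nae_of_cyclic c hR hM h

theorem projects_typeClone {Γ : Set (Rel ℚ)}
    (hΓ : (⟨2, {t | t 0 ≠ t 1}⟩ : Rel ℚ) ∈ Γ ∨ (⟨2, {t | t 0 < t 1}⟩ : Rel ℚ) ∈ Γ) :
    ProjectsTypeClone Language.order c 2 Γ := by
  obtain ⟨M, hM⟩ := exists_bound c
  choose ξ e hξ using fun (k : ℕ) (F : {F : (Fin k → TypeSet Language.order c 2) →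
    TypeSet Language.order c 2 // InTypeClone Language.order c 2 Γ F}) =>
      exists_place c hΓ hM F.2
  refine ⟨ξ, fun k l π F G hFG => ?_⟩
  apply unary_unique (e := e l G) (e' := e k F)
  intro b
  rw [← hξ l G b, hFG, ← hξ k F fun i => b (π i)]

end Hard

end Pool.Agent.Helper64.Canon
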