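import Mathlib
import Pool.Agent.Helper64.CanonDefs

set_option autoImplicit false

open Turing StateTransition

namespace Pool.Agent.Helper64.Canon

/-! A Turing machine deciding whether some constraint of an instance has two equal variables. -/

/-- stacks -/
inductive Stk
  | inp
  | work
  | out
  deriving DecidableEq

instance : Fintype Stk := ⟨{Stk.inp, Stk.work, Stk.out}, fun x => by cases x <;> simp⟩

/-- labels -/
inductive Lab
  | idx
  | rx
  | ry
  | skip
  | clw
  | clr
  deriving DecidableEq

instance : Fintype Lab := ⟨{Lab.idx, Lab.rx, Lab.ry, Lab.skip, Lab.clw, Lab.clr},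
  fun x => by cases x <;> simp⟩

/-- alphabets -/
def Alph : Stk → Type
  | .inp => Fin 3
  | .work => Fin 3
  | .out => Bool

/-- the program -/
def prog : Lab → TM2.Stmt Alph Lab (Option (Fin 3))
  | .idx => .pop Stk.inp (fun _ s => s)
      (.branch (fun v => v.isNone) (.push Stk.out (fun _ => true) .halt)
        (.goto fun v => if v = some 1 then Lab.rx else Lab.idx))
  | .rx => .pop Stk.inp (fun _ s => s)
      (.branch (fun v => decide (v = some 0)) (.push Stk.work (fun _ => (0 : Fin 3))
        (.goto fun _ => Lab.rx)) (.goto fun _ => Lab.ry))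
  | .ry => .pop Stk.inp (fun _ s => s)
      (.branch (fun v => decide (v = some 0))
        (.pop Stk.work (fun _ s => s) (.goto fun v => if v.isSome then Lab.ry else Lab.skip))
        (.pop Stk.work (fun _ s => s) (.goto fun v => if v.isSome then Lab.clw else Lab.clr)))
  | .skip => .pop Stk.inp (fun _ s => s)
      (.goto fun v => if v = some 2 then Lab.idx else Lab.skip)
  | .clw => .pop Stk.work (fun _ s => s)
      (.goto fun v => if v.isSome then Lab.clw else Lab.skip)
  | .clr => .pop Stk.inp (fun _ s => s)
      (.branch (fun v => v.isNone) (.push Stk.out (fun _ => false) .halt)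
        (.goto fun _ => Lab.clr))

/-- the machine -/
def machine : FinTM2 where
  K := Stk
  k₀ := Stk.inp
  k₁ := Stk.out
  Γ := Alph
  Λ := Lab
  main := Lab.idx
  σ := Option (Fin 3)
  initialState := none
  Γk₀Fin := inferInstanceAs (Fintype (Fin 3))
  m := prog

/-- stack contents -/
def stk (a b : List (Fin 3)) (c : List Bool) : ∀ k, List (Alph k)
  | .inp => a
  | .work => b
  | .out => c

/-- configurations -/
def cfg (l : Option Lab) (v : Option (Fin 3)) (a b : List (Fin 3)) (c : List Bool) :
    TM2.Cfg Alph Lab (Option (Fin 3)) := ⟨l, v, stk a b c⟩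

theorem cfg_ext {l : Option Lab} {v : Option (Fin 3)} {S : ∀ k, List (Alph k)}
    {a b : List (Fin 3)} {c : List Bool} (h1 : S Stk.inp = a) (h2 : S Stk.work = b)
    (h3 : S Stk.out = c) : (TM2.Cfg.mk l v S : TM2.Cfg Alph Lab (Option (Fin 3))) =
      cfg l v a b c := by
  unfold cfg
  congr 1
  funext k
  cases k
  · exact h1
  · exact h2
  · exact h3

/-- the machine runs from `x` to `y` in at most `m` steps -/
def Runs (x y : TM2.Cfg Alph Lab (Option (Fin 3))) (m : ℕ) : Prop :=
  Nonempty (EvalsToInTime (TM2.step prog) x (some y) m)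

theorem Runs.refl (x : TM2.Cfg Alph Lab (Option (Fin 3))) : Runs x x 0 :=
  ⟨EvalsToInTime.refl _ _⟩

theorem Runs.trans {x y z : TM2.Cfg Alph Lab (Option (Fin 3))} {m n : ℕ} (h : Runs x y m)
    (h' : Runs y z n) : Runs x z (n + m) :=
  ⟨EvalsToInTime.trans _ _ _ _ _ _ h.some h'.some⟩

theorem Runs.mono {x y : TM2.Cfg Alph Lab (Option (Fin 3))} {m n : ℕ} (h : Runs x y m)
    (h' : m ≤ n) : Runs x y n :=
  ⟨⟨h.some.toEvalsTo, h.some.steps_le_m.trans h'⟩⟩

theorem Runs.single {x y : TM2.Cfg Alph Lab (Option (Fin 3))} (h : TM2.step prog x = some y) :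
    Runs x y 1 := ⟨⟨⟨1, h⟩, le_rfl⟩⟩

theorem Runs.cons {x y z : TM2.Cfg Alph Lab (Option (Fin 3))} {n : ℕ}
    (h : TM2.step prog x = some y) (h' : Runs y z n) : Runs x z (n + 1) :=
  (Runs.single h).trans h'

/-- one step -/
theorem step_idx_none (v : Option (Fin 3)) (b : List (Fin 3)) (c : List Bool) :
    TM2.step prog (cfg (some .idx) v [] b c) = some (cfg none none [] b (true :: c)) :=
  congrArg some (cfg_ext rfl rfl rfl)

theorem step_idx_cons (v : Option (Fin 3)) (s : Fin 3) (a b : List (Fin 3)) (c : List Bool) :
    TM2.step prog (cfg (some .idx) v (s :: a) b c) =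
      some (cfg (some (if s = 1 then .rx else .idx)) (some s) a b c) := by
  have e : (if s = 1 then Lab.rx else Lab.idx) =
      if (some s : Option (Fin 3)) = some 1 then Lab.rx else Lab.idx := by
    simp only [Option.some.injEq]
  rw [e]
  exact congrArg some (cfg_ext rfl rfl rfl)

theorem step_rx_zero (v : Option (Fin 3)) (a b : List (Fin 3)) (c : List Bool) :
    TM2.step prog (cfg (some .rx) v (0 :: a) b c) =
      some (cfg (some .rx) (some 0) a (0 :: b) c) :=
  congrArg some (cfg_ext rfl rfl rfl)

theorem step_rx_one (v : Option (Fin 3)) (a b : List (Fin 3)) (c : List Bool) :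
    TM2.step prog (cfg (some .rx) v (1 :: a) b c) =
      some (cfg (some .ry) (some 1) a b c) :=
  congrArg some (cfg_ext rfl rfl rfl)

theorem step_ry_zero_cons (v : Option (Fin 3)) (s : Fin 3) (a b : List (Fin 3)) (c : List Bool) :
    TM2.step prog (cfg (some .ry) v (0 :: a) (s :: b) c) =
      some (cfg (some .ry) (some s) a b c) :=
  congrArg some (cfg_ext rfl rfl rfl)

theorem step_ry_zero_nil (v : Option (Fin 3)) (a : List (Fin 3)) (c : List Bool) :
    TM2.step prog (cfg (some .ry) v (0 :: a) [] c) =
      some (cfg (some .skip) none a [] c) :=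
  congrArg some (cfg_ext rfl rfl rfl)

theorem step_ry_one_cons (v : Option (Fin 3)) (s : Fin 3) (a b : List (Fin 3)) (c : List Bool) :
    TM2.step prog (cfg (some .ry) v (1 :: a) (s :: b) c) =
      some (cfg (some .clw) (some s) a b c) :=
  congrArg some (cfg_ext rfl rfl rfl)

theorem step_ry_one_nil (v : Option (Fin 3)) (a : List (Fin 3)) (c : List Bool) :
    TM2.step prog (cfg (some .ry) v (1 :: a) [] c) =
      some (cfg (some .clr) none a [] c) :=
  congrArg some (cfg_ext rfl rfl rfl)

theorem step_skip (v : Option (Fin 3)) (s : Fin 3) (a b : List (Fin 3)) (c : List Bool) :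
    TM2.step prog (cfg (some .skip) v (s :: a) b c) =
      some (cfg (some (if s = 2 then .idx else .skip)) (some s) a b c) := by
  have e : (if s = 2 then Lab.idx else Lab.skip) =
      if (some s : Option (Fin 3)) = some 2 then Lab.idx else Lab.skip := by
    simp only [Option.some.injEq]
  rw [e]
  exact congrArg some (cfg_ext rfl rfl rfl)

theorem step_clw_cons (v : Option (Fin 3)) (s : Fin 3) (a b : List (Fin 3)) (c : List Bool) :
    TM2.step prog (cfg (some .clw) v a (s :: b) c) =
      some (cfg (some .clw) (some s) a b c) :=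
  congrArg some (cfg_ext rfl rfl rfl)

theorem step_clw_nil (v : Option (Fin 3)) (a : List (Fin 3)) (c : List Bool) :
    TM2.step prog (cfg (some .clw) v a [] c) =
      some (cfg (some .skip) none a [] c) :=
  congrArg some (cfg_ext rfl rfl rfl)

theorem step_clr_none (v : Option (Fin 3)) (b : List (Fin 3)) (c : List Bool) :
    TM2.step prog (cfg (some .clr) v [] b c) = some (cfg none none [] b (false :: c)) :=
  congrArg some (cfg_ext rfl rfl rfl)

theorem step_clr_cons (v : Option (Fin 3)) (s : Fin 3) (a b : List (Fin 3)) (c : List Bool) :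
    TM2.step prog (cfg (some .clr) v (s :: a) b c) =
      some (cfg (some .clr) (some s) a b c) :=
  congrArg some (cfg_ext rfl rfl rfl)

/-- clearing the input -/
theorem runs_clr (a : List (Fin 3)) : ∀ v : Option (Fin 3),
    Runs (cfg (some .clr) v a [] []) (cfg none none [] [] [false]) (a.length + 1) := by
  induction a with
  | nil => exact fun v => Runs.single (step_clr_none v [] [])
  | cons s a ih => exact fun v => Runs.cons (step_clr_cons v s a [] []) (ih (some s))

theorem runs_idx (i : ℕ) (a : List (Fin 3)) : ∀ v : Option (Fin 3), ∃ v',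
    Runs (cfg (some .idx) v (List.replicate i 0 ++ (1 :: a)) [] [])
      (cfg (some .rx) v' a [] []) (i + 1) := by
  induction i with
  | zero =>
    intro v
    refine ⟨some 1, Runs.single ?_⟩
    rw [List.replicate_zero, List.nil_append, step_idx_cons, if_pos rfl]
  | succ i ih =>
    intro v
    obtain ⟨v', hv'⟩ := ih (some 0)
    refine ⟨v', Runs.cons ?_ hv'⟩
    rw [List.replicate_succ, List.cons_append, step_idx_cons, if_neg (by decide)]

theorem runs_rx (x : ℕ) (a : List (Fin 3)) : ∀ (v : Option (Fin 3)) (w : ℕ), ∃ v',
    Runs (cfg (some .rx) v (List.replicate x 0 ++ (1 :: a)) (List.replicate w 0) [])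
      (cfg (some .ry) v' a (List.replicate (w + x) 0) []) (x + 1) := by
  induction x with
  | zero =>
    intro v w
    refine ⟨some 1, Runs.single ?_⟩
    rw [List.replicate_zero, List.nil_append, step_rx_one]
    rfl
  | succ x ih =>
    intro v w
    obtain ⟨v', hv'⟩ := ih (some 0) (w + 1)
    refine ⟨v', Runs.cons ?_ (by rw [show w + (x + 1) = w + 1 + x by ring]; exact hv')⟩
    rw [List.replicate_succ, List.cons_append, step_rx_zero, List.replicate_succ]

theorem runs_skip (u : List (Fin 3)) (hu : ∀ s ∈ u, s ≠ 2) (a : List (Fin 3)) :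
    ∀ v : Option (Fin 3), ∃ v',
    Runs (cfg (some .skip) v (u ++ (2 :: a)) [] [])
      (cfg (some .idx) v' a [] []) (u.length + 1) := by
  induction u with
  | nil =>
    intro v
    refine ⟨some 2, Runs.single ?_⟩
    rw [List.nil_append, step_skip, if_pos rfl]
  | cons s u ih =>
    intro v
    obtain ⟨v', hv'⟩ := ih (fun s hs => hu s (List.mem_cons_of_mem _ hs)) (some s)
    refine ⟨v', Runs.cons ?_ hv'⟩
    rw [List.cons_append, step_skip, if_neg (hu s List.mem_cons_self)]

theorem runs_clw (w : ℕ) (a : List (Fin 3)) : ∀ v : Option (Fin 3),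
    Runs (cfg (some .clw) v a (List.replicate w 0) [])
      (cfg (some .skip) none a [] []) (w + 1) := by
  induction w with
  | zero => exact fun v => Runs.single (step_clw_nil v a [])
  | succ w ih => exact fun v => Runs.cons (step_clw_cons v 0 a _ []) (ih (some 0))

/-- comparing, different variables -/
theorem runs_ry_ne (a : List (Fin 3)) : ∀ (y w : ℕ), w ≠ y → ∀ v : Option (Fin 3), ∃ v',
    Runs (cfg (some .ry) v (List.replicate y 0 ++ (1 :: 2 :: a)) (List.replicate w 0) [])
      (cfg (some .idx) v' a [] []) (y + w + 2) := by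
  intro y
  induction y with
  | zero =>
    intro w hw v
    obtain ⟨w, rfl⟩ := Nat.exists_eq_succ_of_ne_zero hw
    have h1 : Runs (cfg (some .ry) v (List.replicate 0 0 ++ (1 :: 2 :: a))
        (List.replicate (w + 1) 0) []) (cfg (some .clw) (some 0) (2 :: a) (List.replicate w 0) [])
        1 := Runs.single (by
      rw [List.replicate_zero, List.nil_append, List.replicate_succ, step_ry_one_cons])
    obtain ⟨v', h2⟩ := runs_skip [] (by simp) a none
    exact ⟨v', (h1.trans ((runs_clw w (2 :: a) (some 0)).trans h2)).mono (by simp; omega)⟩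
  | succ y ih =>
    intro w hw v
    cases w with
    | zero =>
      have h1 : Runs (cfg (some .ry) v (List.replicate (y + 1) 0 ++ (1 :: 2 :: a))
        (List.replicate 0 0) []) (cfg (some .skip) none
          ((List.replicate y 0 ++ [1]) ++ (2 :: a)) [] [])
        1 := Runs.single (by
          rw [List.replicate_zero, List.replicate_succ, List.cons_append, step_ry_zero_nil]
          simp)
      obtain ⟨v', h2⟩ := runs_skip (List.replicate y 0 ++ [1]) (by
        intro s hs
        simp only [List.mem_append, List.mem_replicate, List.mem_singleton] at hs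
        rcases hs with ⟨_, rfl⟩ | rfl <;> decide) a none
      exact ⟨v', (h1.trans h2).mono (by simp)⟩
    | succ w =>
      obtain ⟨v', h2⟩ := ih w (by omega) (some 0)
      refine ⟨v', (Runs.cons ?_ h2).mono (by omega)⟩
      rw [List.replicate_succ, List.cons_append, List.replicate_succ, step_ry_zero_cons]

/-- comparing, equal variables -/
theorem runs_ry_eq (a : List (Fin 3)) : ∀ (y : ℕ) (v : Option (Fin 3)),
    Runs (cfg (some .ry) v (List.replicate y 0 ++ (1 :: 2 :: a)) (List.replicate y 0) [])
      (cfg none none [] [] [false]) (y + a.length + 3) := by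
  intro y
  induction y with
  | zero =>
    intro v
    have h1 : Runs (cfg (some .ry) v (List.replicate 0 0 ++ (1 :: 2 :: a))
        (List.replicate 0 0) []) (cfg (some .clr) none (2 :: a) [] [])
        1 := Runs.single (by
      rw [List.replicate_zero, List.nil_append, step_ry_one_nil])
    exact (h1.trans (runs_clr (2 :: a) none)).mono (by simp)
  | succ y ih =>
    intro v
    refine (Runs.cons ?_ (ih (some 0))).mono (by omega)
    rw [List.replicate_succ, List.cons_append, step_ry_zero_cons]

theorem encodeConstraint_two {s : ℕ} (x : Σ _ : Fin s, (Fin 2 → ℕ)) :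
    encodeConstraint (ar := fun _ => 2) x =
      List.replicate x.1 0 ++ (1 :: (List.replicate (x.2 0) 0 ++ (1 ::
        (List.replicate (x.2 1) 0 ++ [1, 2])))) := by
  simp [encodeConstraint, List.ofFn_succ]

/-- The machine is correct. -/
theorem runs_main {s : ℕ} (I : Instance s fun _ => 2) : ∀ v : Option (Fin 3),
    Runs (cfg (some .idx) v (encodeInstance I) [] [])
      (cfg none none [] [] [open Classical in decide (∀ x ∈ I, x.2 0 ≠ x.2 1)])
      (2 * (encodeInstance I).length + 1) := by
  classical
  induction I with
  | nil =>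
    intro v
    have := Runs.single (step_idx_none v [] [])
    simpa [encodeInstance] using this
  | cons x I ih =>
    intro v
    have henc : encodeInstance (x :: I) =
        List.replicate x.1 0 ++ (1 :: (List.replicate (x.2 0) 0 ++ (1 ::
        (List.replicate (x.2 1) 0 ++ (1 :: 2 :: encodeInstance I))))) := by
      simp only [encodeInstance, List.map_cons, List.flatten_cons]
      rw [encodeConstraint_two]
      simp
    have hlen : (encodeInstance (x :: I)).length =
        x.1 + x.2 0 + x.2 1 + 4 + (encodeInstance I).length := by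
      rw [henc]
      simp
      omega
    obtain ⟨v1, h1⟩ := runs_idx x.1 (List.replicate (x.2 0) 0 ++ (1 ::
        (List.replicate (x.2 1) 0 ++ (1 :: 2 :: encodeInstance I)))) v
    obtain ⟨v2, h2⟩ := runs_rx (x.2 0)
        (List.replicate (x.2 1) 0 ++ (1 :: 2 :: encodeInstance I)) v1 0
    rw [zero_add] at h2
    rw [← henc] at h1
    have h12 := h1.trans h2
    by_cases hx : x.2 0 = x.2 1
    · have h3 := runs_ry_eq (encodeInstance I) (x.2 1) v2
      rw [hx] at h12
      have h4 := h12.trans h3
      have hd : decide (∀ y ∈ x :: I, y.2 0 ≠ y.2 1) = false := by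
        rw [decide_eq_false_iff_not]
        intro h
        exact h x List.mem_cons_self hx
      rw [hd]
      exact h4.mono (by rw [hlen]; omega)
    · obtain ⟨v3, h3⟩ := runs_ry_ne (encodeInstance I) (x.2 1) (x.2 0) hx v2
      have h4 := (h12.trans h3).trans (ih v3)
      have hd : decide (∀ y ∈ x :: I, y.2 0 ≠ y.2 1) = decide (∀ y ∈ I, y.2 0 ≠ y.2 1) := by
        apply decide_eq_decide.2
        simp only [List.forall_mem_cons]
        exact ⟨fun h => h.2, fun h => ⟨hx, h⟩⟩
      rw [hd]
      exact h4.mono (by rw [hlen]; omega)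

theorem initList_machine (l : List (Fin 3)) :
    initList machine (List.map (Equiv.refl (Fin 3)).invFun l) = cfg (some .idx) none l [] [] :=
  cfg_ext (List.map_id l) rfl rfl

theorem haltList_machine (b : Bool) :
    haltList machine (List.map (Equiv.refl Bool).invFun (Computability.encodeBool b)) =
      cfg none none [] [] [b] :=
  cfg_ext rfl rfl rfl

theorem runs_aux {x y : machine.Cfg} {x' y' : TM2.Cfg Alph Lab (Option (Fin 3))} (hx : x = x')
    (hy : y = y') {n : ℕ} (h : Runs x' y' n) :
    Nonempty (EvalsToInTime machine.step x (some y) n) := by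
  subst hx
  subst hy
  exact h

theorem outputs_machine {s : ℕ} (I : Instance s fun _ => 2) (b : Bool)
    (hb : b = true ↔ ∀ x ∈ I, x.2 0 ≠ x.2 1) :
    Nonempty (TM2OutputsInTime machine
      (List.map (Equiv.refl (Fin 3)).invFun (encodeInstance I))
      (Option.some ((List.map (Equiv.refl Bool).invFun) (Computability.encodeBool b)))
      ((2 * Polynomial.X + 1 : Polynomial ℕ).eval (encodeInstance I).length)) := by
  classical
  have h := runs_main I none
  have h3 : (2 * Polynomial.X + 1 : Polynomial ℕ).eval (encodeInstance I).length =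
      2 * (encodeInstance I).length + 1 := by simp
  have hb' : decide (∀ x ∈ I, x.2 0 ≠ x.2 1) = b := by
    cases b
    · rw [decide_eq_false_iff_not]
      intro h'
      exact absurd (hb.2 h') (by decide)
    · rw [decide_eq_true_iff]
      exact hb.1 rfl
  have h0 : Runs (cfg (some .idx) none (encodeInstance I) [] [])
      (cfg none none [] [] [b]) (2 * (encodeInstance I).length + 1) := by
    rw [← hb']
    convert h
  rw [h3]
  have h1 := initList_machine (encodeInstance I)
  have h2 := haltList_machine b
  exact runs_aux h1 h2 h0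

/-- Deciding whether all constraints have different variables is in P. -/
theorem inP_ne {s : ℕ} : InP {I : Instance s fun _ => 2 | ∀ x ∈ I, x.2 0 ≠ x.2 1} := by
  refine ⟨{
    tm := machine
    inputAlphabet := Equiv.refl (Fin 3)
    outputAlphabet := Equiv.refl Bool
    time := 2 * Polynomial.X + 1
    outputsFun := fun I => (outputs_machine I (@decide _ (Classical.propDecidable _))
      (@decide_eq_true_iff _ (Classical.propDecidable _))).some }⟩

end Pool.Agent.Helper64.Canon
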