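import Mathlib

set_option autoImplicit false

namespace Pool.Agent.Helper64.Canon

/-! The finite Ramsey theorem for `k`-subsets. -/

theorem exists_ulim {r : ℕ} (U : Ultrafilter ℕ) (f : ℕ → Fin r) :
    ∃ c : Fin r, ∀ᶠ n in (U : Filter ℕ), f n = c := by
  obtain ⟨c, hc⟩ := (U.map f).eq_pure_of_finite
  refine ⟨c, ?_⟩
  have h1 : ({c} : Set (Fin r)) ∈ U.map f := by
    rw [hc]
    exact Set.mem_singleton c
  rw [Ultrafilter.mem_map] at h1
  exact h1

/-- the limit of a finite colouring along an ultrafilter -/
noncomputable def ulim {r : ℕ} (U : Ultrafilter ℕ) (f : ℕ → Fin r) : Fin r :=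
  Classical.choose (exists_ulim U f)

theorem ulim_spec {r : ℕ} (U : Ultrafilter ℕ) (f : ℕ → Fin r) :
    ∀ᶠ n in (U : Filter ℕ), f n = ulim U f :=
  Classical.choose_spec (exists_ulim U f)

/-- iterated limits -/
noncomputable def iterLim {r : ℕ} (U : Ultrafilter ℕ) (χ : ℕ → Finset ℕ → Fin r) :
    ℕ → Finset ℕ → Fin r
  | 0, s => ulim U fun N => χ N s
  | i + 1, s => ulim U fun n => iterLim U χ i (insert n s)

theorem finite_ramsey (k n r : ℕ) : ∃ N : ℕ, ∀ χ : Finset ℕ → Fin r,
    ∃ (H : Finset ℕ) (col : Fin r), (∀ a ∈ H, a < N) ∧ H.card = n ∧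
      ∀ s ⊆ H, s.card = k → χ s = col := by
  by_contra! hcon
  choose χ hχ using hcon
  let U : Ultrafilter ℕ := Filter.hyperfilter ℕ
  have hU : ∀ m : ℕ, ∀ᶠ n in (U : Filter ℕ), m < n := by
    intro m
    have h1 : {n : ℕ | m < n} ∈ Filter.hyperfilter ℕ := by
      apply Filter.mem_hyperfilter_of_finite_compl
      apply (Set.finite_le_nat m).subset
      intro x hx
      simpa using hx
    exact h1
  let c : Fin r := iterLim U χ k ∅
  have key : ∀ m : ℕ, ∃ H : Finset ℕ, H.card = m ∧ ∀ s ⊆ H, ∀ i, s.card + i = k →
      iterLim U χ i s = c := by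
    intro m
    induction m with
    | zero =>
      refine ⟨∅, rfl, fun s hs i hi => ?_⟩
      rw [Finset.subset_empty] at hs
      subst hs
      simp only [Finset.card_empty, zero_add] at hi
      rw [hi]
    | succ m ih =>
      obtain ⟨H, hH, hs⟩ := ih
      have h1 : ∀ᶠ a in (U : Filter ℕ), ∀ s ∈ H.powerset, ∀ i, s.card + (i + 1) = k →
          iterLim U χ i (insert a s) = c := by
        rw [Finset.eventually_all]
        intro s hsH
        rw [Finset.mem_powerset] at hsH
        by_cases hk : s.card + 1 ≤ k
        · obtain ⟨i, hi⟩ := Nat.exists_eq_add_of_le hk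
          have h2 := ulim_spec U fun n => iterLim U χ i (insert n s)
          have h3 : iterLim U χ (i + 1) s = c := hs s hsH (i + 1) (by omega)
          filter_upwards [h2] with a ha j hj
          have hij : j = i := by omega
          subst hij
          rw [ha]
          exact h3
        · filter_upwards with a j hj
          omega
      obtain ⟨b, hb⟩ := H.bddAbove
      obtain ⟨a, ha, hba⟩ := (h1.and (hU b)).exists
      have haH : a ∉ H := fun h => absurd (hb h) (not_le.2 hba)
      refine ⟨insert a H, by rw [Finset.card_insert_of_notMem haH, hH], fun s hs' i hi => ?_⟩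
      by_cases has : a ∈ s
      · have h4 : s.erase a ⊆ H := by
          intro x hx
          rw [Finset.mem_erase] at hx
          have := hs' hx.2
          rw [Finset.mem_insert] at this
          exact this.resolve_left hx.1
        have h5 := ha (s.erase a) (Finset.mem_powerset.2 h4) i (by
          have := Finset.card_erase_add_one has
          omega)
        rwa [Finset.insert_erase has] at h5
      · apply hs s _ i hi
        intro x hx
        have := hs' hx
        rw [Finset.mem_insert] at this
        rcases this with rfl | this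
        · exact absurd hx has
        · exact this
  obtain ⟨H, hH, hs⟩ := key n
  have h1 : ∀ᶠ N in (U : Filter ℕ), ∀ s ∈ H.powerset, s.card = k → χ N s = c := by
    rw [Finset.eventually_all]
    intro s hsH
    rw [Finset.mem_powerset] at hsH
    by_cases hk : s.card = k
    · have h2 := ulim_spec U fun N => χ N s
      have h3 : iterLim U χ 0 s = c := hs s hsH 0 hk
      filter_upwards [h2] with N hN _
      rw [hN]
      exact h3
    · filter_upwards with N h
      exact absurd h hk
  obtain ⟨b, hb⟩ := H.bddAbove
  obtain ⟨N, hN, hbN⟩ := (h1.and (hU b)).exists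
  obtain ⟨s, hsH, hsk, hne⟩ := hχ N H c (fun a ha => lt_of_le_of_lt (hb ha) hbN) hH
  exact hne (hN s (Finset.mem_powerset.2 hsH) hsk)

end Pool.Agent.Helper64.Canon
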