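import Mathlib
import Pool.Agent.Helper64.CanonTypes
import Pool.Agent.Helper64.CanonRamsey

set_option autoImplicit false

open FirstOrder FirstOrder.Language

namespace Pool.Agent.Helper64.Canon

attribute [local instance] ratStructure ratOrdered

/-- embeddings from maps respecting the order relation -/
def mkEmb {A B : Type} [Language.order.Structure A] [Language.order.Structure B] (e : A → B)
    (he : Function.Injective e)
    (h : ∀ x y, Structure.RelMap (leSymb : Language.order.Relations 2) ![e x, e y] ↔
      Structure.RelMap (leSymb : Language.order.Relations 2) ![x, y]) :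
    A ↪[Language.order] B where
  toFun := e
  inj' := he
  map_fun' := fun f => isEmptyElim f
  map_rel' := by
    intro n R x
    match n, R, x with
    | 2, .le, x =>
      have h1 := h (x 0) (x 1)
      have h2 : ![x 0, x 1] = x := by
        funext i
        fin_cases i <;> rfl
      have h3 : ![e (x 0), e (x 1)] = e ∘ x := by
        funext i
        fin_cases i <;> rfl
      rw [h2, h3] at h1
      exact h1

theorem rel_emb {A B : Type} [Language.order.Structure A] [Language.order.Structure B]
    (f : A ↪[Language.order] B) (x y : A) :
    Structure.RelMap (leSymb : Language.order.Relations 2) ![f x, f y] ↔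
      Structure.RelMap (leSymb : Language.order.Relations 2) ![x, y] := by
  have h := f.map_rel (leSymb : Language.order.Relations 2) ![x, y]
  have h3 : f ∘ ![x, y] = ![f x, f y] := by
    funext i
    fin_cases i <;> rfl
  rw [h3] at h
  exact h

/-- the structure given by a binary relation -/
@[instance_reducible]
def relStruct {A : Type} (p : A → A → Prop) : Language.order.Structure A where
  RelMap | .le => fun x => p (x 0) (x 1)

theorem finitelyBounded_rat : FinitelyBounded Language.order ℚ := by
  classical
  refine ⟨Σ j : Fin 4, {p : Fin j → Fin j → Prop // ¬ ∃ e : Fin j → ℚ, Function.Injective e ∧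
    ∀ a b, e a ≤ e b ↔ p a b}, inferInstance, fun i => Fin i.1, fun i => relStruct i.2.1,
    fun i => inferInstance, ?_⟩
  intro A _ _
  constructor
  · rintro ⟨f⟩ ⟨j, p, hp⟩
    constructor
    intro g
    let _ := relStruct p
    apply hp
    refine ⟨fun a => f (g a), f.injective.comp g.injective, fun a b => ?_⟩
    have h1 := (rel_emb f (g a) (g b)).trans (rel_emb g a b)
    rw [relMap_leSymb] at h1
    exact h1
  · intro h
    have key : ∀ (j : ℕ) (hj : j < 4) (u : Fin j → A), Function.Injective u →
        ∃ e : Fin j → ℚ, Function.Injective e ∧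
        ∀ a b, e a ≤ e b ↔
          Structure.RelMap (leSymb : Language.order.Relations 2) ![u a, u b] := by
      intro j hj u hu
      by_contra hcon
      let p : Fin j → Fin j → Prop := fun a b =>
        Structure.RelMap (leSymb : Language.order.Relations 2) ![u a, u b]
      have h1 := h ⟨⟨j, hj⟩, p, hcon⟩
      let _ := relStruct p
      exact h1.false (mkEmb u hu fun x y => Iff.rfl)
    let r : A → A → Prop := fun x y =>
      Structure.RelMap (leSymb : Language.order.Relations 2) ![x, y]
    have hrefl : ∀ x : A, r x x := by
      intro x
      obtain ⟨e, -, he⟩ := key 1 (by norm_num) ![x] (by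
        intro a b _
        exact Subsingleton.elim a b)
      exact (he 0 0).1 le_rfl
    have hpair : ∀ x y : A, x ≠ y → Function.Injective ![x, y] := by
      intro x y hxy a b hab
      fin_cases a <;> fin_cases b
      · rfl
      · exact absurd hab hxy
      · exact absurd hab hxy.symm
      · rfl
    have htotal : ∀ x y, r x y ∨ r y x := by
      intro x y
      by_cases hxy : x = y
      · subst hxy
        exact Or.inl (hrefl x)
      · obtain ⟨e, -, he⟩ := key 2 (by norm_num) ![x, y] (hpair x y hxy)
        rcases le_total (e 0) (e 1) with h1 | h1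
        · exact Or.inl ((he 0 1).1 h1)
        · exact Or.inr ((he 1 0).1 h1)
    have hantisymm : ∀ x y, r x y → r y x → x = y := by
      intro x y h1 h2
      by_contra hxy
      obtain ⟨e, hinj, he⟩ := key 2 (by norm_num) ![x, y] (hpair x y hxy)
      have h3 := (he 0 1).2 h1
      have h4 := (he 1 0).2 h2
      exact absurd (hinj (le_antisymm h3 h4)) (by decide)
    have htrans : ∀ x y z, r x y → r y z → r x z := by
      intro x y z h1 h2
      by_cases hxy : x = y
      · subst hxy
        exact h2
      by_cases hyz : y = z
      · subst hyz
        exact h1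
      by_cases hxz : x = z
      · subst hxz
        exact hrefl x
      have hinj : Function.Injective ![x, y, z] := by
        intro a b hab
        fin_cases a <;> fin_cases b
        · rfl
        · exact absurd hab hxy
        · exact absurd hab hxz
        · exact absurd hab (Ne.symm hxy)
        · rfl
        · exact absurd hab hyz
        · exact absurd hab (Ne.symm hxz)
        · exact absurd hab (Ne.symm hyz)
        · rfl
      obtain ⟨e, -, he⟩ := key 3 (by norm_num) ![x, y, z] hinj
      exact (he 0 2).1 (((he 0 1).2 h1).trans ((he 1 2).2 h2))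
    let _ : LinearOrder A :=
      { le := r
        le_refl := hrefl
        le_trans := htrans
        le_antisymm := hantisymm
        le_total := htotal
        toDecidableLE := Classical.decRel _ }
    obtain ⟨e⟩ := nonempty_orderEmbedding_of_finite_infinite A ℚ
    exact ⟨mkEmb e e.injective fun x y => by
      rw [relMap_leSymb]
      exact e.le_iff_le⟩

theorem ordered_rat : Ordered Language.order ℚ := by
  refine ⟨leSymb, inferInstance, Or.inl fun x y => ?_⟩
  rw [relMap_leSymb]
  rfl

theorem maxArity_order : IsMaxArity Language.order 2 := by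
  refine ⟨⟨leSymb⟩, ?_⟩
  rintro m ⟨R⟩
  match m, R with
  | 2, .le => exact le_rfl

/-- the substructure with a given underlying set -/
def subOf {C : Type} [Language.order.Structure C] (X : Set C) :
    Language.order.Substructure C where
  carrier := X
  fun_mem := fun f => isEmptyElim f

theorem ramsey_rat : Ramsey Language.order ℚ := by
  classical
  intro A B _ _ _ _ _ hB r
  obtain ⟨eB⟩ := hB
  obtain ⟨N, hN⟩ := finite_ramsey (Nat.card A) (Nat.card B) r
  let _ : Language.order.Structure (Fin N) := orderStructure (Fin N)
  have : Language.order.OrderedStructure (Fin N) := ⟨fun _ => Iff.rfl⟩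
  refine ⟨Fin N, inferInstance, inferInstance, ?_, ?_⟩
  · refine ⟨mkEmb (fun x => ((x : ℕ) : ℚ)) ?_ ?_⟩
    · intro x y hxy
      exact Fin.ext (Nat.cast_injective hxy)
    · intro x y
      rw [relMap_leSymb, relMap_leSymb]
      show ((x : ℕ) : ℚ) ≤ ((y : ℕ) : ℚ) ↔ x ≤ y
      rw [Nat.cast_le]
      rfl
  · intro χ
    obtain ⟨H, col, hHN, hHcard, hH⟩ := hN fun s => χ (subOf {x : Fin N | (x : ℕ) ∈ s})
    have : Fintype B := Fintype.ofFinite B
    let T : Finset ℚ := Finset.univ.image eB
    have hT : T.card = Nat.card B := by
      rw [Finset.card_image_of_injective _ eB.injective, Finset.card_univ, Nat.card_eq_fintype_card]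
    let i1 : Fin (Nat.card B) ≃o T := T.orderIsoOfFin hT
    let i2 : Fin (Nat.card B) ≃o H := H.orderIsoOfFin hHcard
    have hmemT : ∀ b : B, eB b ∈ T := fun b => Finset.mem_image_of_mem _ (Finset.mem_univ b)
    let g0 : B → H := fun b => i2 (i1.symm ⟨eB b, hmemT b⟩)
    have hg0 : ∀ b b', g0 b ≤ g0 b' ↔ eB b ≤ eB b' := by
      intro b b'
      rw [i2.le_iff_le, i1.symm.le_iff_le]
      rfl
    have hg0inj : Function.Injective g0 := by
      intro b b' h
      apply eB.injective
      exact le_antisymm ((hg0 _ _).1 h.le) ((hg0 _ _).1 h.ge)
    have hg0surj : Function.Surjective g0 := by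
      intro y
      have h1 : (i1 (i2.symm y)).1 ∈ T := (i1 (i2.symm y)).2
      rw [Finset.mem_image] at h1
      obtain ⟨b, -, hb⟩ := h1
      refine ⟨b, ?_⟩
      have h2 : (⟨eB b, hmemT b⟩ : T) = i1 (i2.symm y) := Subtype.ext hb
      show i2 (i1.symm ⟨eB b, hmemT b⟩) = y
      rw [h2]
      simp
    let g : B → Fin N := fun b => ⟨g0 b, hHN _ (g0 b).2⟩
    have hginj : Function.Injective g := by
      intro b b' h
      apply hg0inj
      apply Subtype.ext
      exact congrArg Fin.val h
    refine ⟨mkEmb g hginj ?_, col, ?_⟩
    · intro x y
      rw [relMap_leSymb]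
      have h1 := rel_emb eB x y
      rw [relMap_leSymb] at h1
      rw [← h1]
      exact hg0 x y
    · rintro S ⟨iso⟩ hS
      have hS' : ∀ x : Fin N, x ∈ S → (x : ℕ) ∈ H := by
        intro x hx
        obtain ⟨b, hb⟩ := hS hx
        have hb' : g b = x := hb
        rw [← hb']
        exact (g0 b).2
      let s : Finset ℕ := (Finset.univ.filter fun x : Fin N => x ∈ S).image Fin.val
      have hs : ∀ x : Fin N, (x : ℕ) ∈ s ↔ x ∈ S := by
        intro x
        simp only [s, Finset.mem_image, Finset.mem_filter, Finset.mem_univ, true_and]
        constructor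
        · rintro ⟨y, hy, hyx⟩
          rwa [← Fin.ext hyx]
        · intro hx
          exact ⟨x, hx, rfl⟩
      have hsH : s ⊆ H := by
        intro a ha
        simp only [s, Finset.mem_image, Finset.mem_filter, Finset.mem_univ, true_and] at ha
        obtain ⟨y, hy, rfl⟩ := ha
        exact hS' y hy
      have hcard : s.card = Nat.card A := by
        rw [Finset.card_image_of_injective _ Fin.val_injective, Nat.card_congr iso.toEquiv]
        rw [← Fintype.card_subtype, ← Nat.card_eq_fintype_card]
      have h1 := hH s hsH hcard
      have h2 : subOf {x : Fin N | (x : ℕ) ∈ s} = S := by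
        ext x
        exact hs x
      rw [h2] at h1
      exact h1

theorem template_rat : IsTemplate Language.order ℚ :=
  ⟨inferInstance, inferInstance, inferInstance, rat_ultrahomogeneous, finitelyBounded_rat,
    ordered_rat, ramsey_rat⟩

end Pool.Agent.Helper64.Canon
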