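import Mathlib

set_option autoImplicit false

namespace Pool.Agent.Helper64

open Finset

section GridCount

variable {ι : Type*} [Fintype ι] [DecidableEq ι] {T : ι → Type*} [∀ i, Fintype (T i)]
  [∀ i, DecidableEq (T i)]

/-- The multivariate polynomial with prescribed coefficients in a box of exponents. -/
noncomputable def boxPoly {d : ι → ℕ} (z : (∀ i, Fin (d i)) → ℚ) : MvPolynomial ι ℚ :=
  ∑ a : (∀ i, Fin (d i)),
    MvPolynomial.monomial (Finsupp.equivFunOnFinite.symm fun i => ((a i : Fin (d i)) : ℕ)) (z a)

theorem boxPoly_eval {d : ι → ℕ} (z : (∀ i, Fin (d i)) → ℚ) (x : ι → ℚ) :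
    MvPolynomial.eval x (boxPoly z) = ∑ a : (∀ i, Fin (d i)), z a * ∏ i, x i ^ (a i : ℕ) := by
  unfold boxPoly
  rw [map_sum]
  refine Finset.sum_congr rfl fun a _ => ?_
  rw [MvPolynomial.eval_monomial]
  congr 1
  rw [Finsupp.prod_fintype]
  · simp
  · intro i; simp

theorem boxPoly_coeff {d : ι → ℕ} (z : (∀ i, Fin (d i)) → ℚ) (a : ∀ i, Fin (d i)) :
    MvPolynomial.coeff (Finsupp.equivFunOnFinite.symm fun i => ((a i : Fin (d i)) : ℕ))
      (boxPoly z) = z a := by
  unfold boxPoly
  rw [MvPolynomial.coeff_sum, Finset.sum_eq_single a]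
  · simp
  · intro b _ hb
    rw [MvPolynomial.coeff_monomial, if_neg]
    intro h
    apply hb
    have h' := Finsupp.equivFunOnFinite.symm.injective h
    funext i
    exact Fin.ext (congrFun h' i)
  · simp

theorem boxPoly_degreeOf {d : ι → ℕ} (hd : ∀ i, 0 < d i) (z : (∀ i, Fin (d i)) → ℚ) (i : ι) :
    MvPolynomial.degreeOf i (boxPoly z) < d i := by
  unfold boxPoly
  refine lt_of_le_of_lt (MvPolynomial.degreeOf_sum_le _ _ _) ?_
  rw [Finset.sup_lt_iff (by simpa using hd i)]
  intro a _
  rw [MvPolynomial.degreeOf_lt_iff (hd i)]
  intro m hm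
  have hm' := MvPolynomial.support_monomial_subset hm
  rw [Finset.mem_singleton] at hm'
  subst hm'
  simp

/-- The counting lemma. `S` is a set of grid points, each of which is claimed by the line through
it in direction `dir t`; the keys of the claiming lines are ordered, and the other claimed points
of that line have strictly smaller keys. If each claiming line claims at most `N i - d i` points
then at least `∏ d i` grid points are not in `S`. -/
theorem card_add_prod_le {κ : Type*} [LinearOrder κ] (d : ι → ℕ)
    (hdN : ∀ i, d i ≤ Fintype.card (T i))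
    (S : Finset (∀ i, T i)) (dir : (∀ i, T i) → ι) (key : (∀ i, T i) → κ)
    (hkey : ∀ t ∈ S, ∀ y : T (dir t), Function.update t (dir t) y ∈ S →
      dir (Function.update t (dir t) y) ≠ dir t → key (Function.update t (dir t) y) < key t)
    (hcount : ∀ t ∈ S, (univ.filter fun y : T (dir t) => Function.update t (dir t) y ∈ S ∧
      dir (Function.update t (dir t) y) = dir t).card + d (dir t) ≤ Fintype.card (T (dir t))) :
    S.card + ∏ i, d i ≤ ∏ i, Fintype.card (T i) := by
  classical
  have hcardT : Fintype.card (∀ i, T i) = ∏ i, Fintype.card (T i) := Fintype.card_pi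
  have hSle : S.card ≤ ∏ i, Fintype.card (T i) := hcardT ▸ Finset.card_le_univ S
  by_cases hd0 : ∃ i, d i = 0
  · obtain ⟨i, hi⟩ := hd0
    rw [Finset.prod_eq_zero (Finset.mem_univ i) hi]
    simpa using hSle
  have hd : ∀ i, 0 < d i := fun i => Nat.pos_of_ne_zero fun h => hd0 ⟨i, h⟩
  by_contra hcon
  push Not at hcon
  -- an injection of each axis into the rationals
  let e : ∀ i, T i → ℚ := fun i x => ((Fintype.equivFin (T i) x : ℕ) : ℚ)
  have he : ∀ i, Function.Injective (e i) := by
    intro i x y hxy
    have : (Fintype.equivFin (T i) x : ℕ) = (Fintype.equivFin (T i) y : ℕ) := by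
      have hxy' : ((Fintype.equivFin (T i) x : ℕ) : ℚ) = ((Fintype.equivFin (T i) y : ℕ) : ℚ) := hxy
      exact_mod_cast hxy'
    exact (Fintype.equivFin (T i)).injective (Fin.ext this)
  let ev : (∀ i, T i) → (ι → ℚ) := fun t i => e i (t i)
  let Φ : ((∀ i, Fin (d i)) → ℚ) →ₗ[ℚ] ({t // t ∉ S} → ℚ) :=
    { toFun := fun z t => ∑ a : (∀ i, Fin (d i)), z a * ∏ i, (ev t.1 i) ^ (a i : ℕ)
      map_add' := by
        intro z w
        funext t
        simp [add_mul, Finset.sum_add_distrib]
      map_smul' := by
        intro c z
        funext t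
        simp [Finset.mul_sum, mul_assoc] }
  have hker : LinearMap.ker Φ ≠ ⊥ := by
    apply LinearMap.ker_ne_bot_of_finrank_lt
    rw [Module.finrank_fintype_fun_eq_card, Module.finrank_fintype_fun_eq_card, Fintype.card_pi]
    have h1 : Fintype.card {t // t ∉ S} = Fintype.card (∀ i, T i) - S.card := by
      rw [Fintype.card_subtype_compl, Fintype.card_coe]
    rw [h1, hcardT]
    simp only [Fintype.card_fin]
    omega
  obtain ⟨z, hzker, hz0⟩ := (Submodule.ne_bot_iff _).1 hker
  have hzS : ∀ t, t ∉ S → MvPolynomial.eval (ev t) (boxPoly z) = 0 := by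
    intro t ht
    rw [boxPoly_eval]
    have := congrFun (LinearMap.mem_ker.1 hzker) ⟨t, ht⟩
    simpa [Φ] using this
  -- the polynomial vanishes at every grid point
  have hall : ∀ t, MvPolynomial.eval (ev t) (boxPoly z) = 0 := by
    by_contra hne
    push Not at hne
    let N : Finset (∀ i, T i) := univ.filter fun t => MvPolynomial.eval (ev t) (boxPoly z) ≠ 0
    have hN : N.Nonempty := by
      obtain ⟨t, ht⟩ := hne
      exact ⟨t, by simp [N, ht]⟩
    obtain ⟨t, htN, htmin⟩ := Finset.exists_min_image N key hN
    have htne : MvPolynomial.eval (ev t) (boxPoly z) ≠ 0 := by simpa [N] using htN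
    have htS : t ∈ S := by
      by_contra h
      exact htne (hzS t h)
    set i := dir t with hi
    -- restriction to the line
    let Q : Polynomial ℚ := ∑ a : (∀ i, Fin (d i)),
      Polynomial.C (z a * ∏ j ∈ univ.erase i, (ev t j) ^ (a j : ℕ)) * Polynomial.X ^ (a i : ℕ)
    have hQeval : ∀ y : T i, MvPolynomial.eval (ev (Function.update t i y)) (boxPoly z)
        = Polynomial.eval (e i y) Q := by
      intro y
      rw [boxPoly_eval, Polynomial.eval_finsetSum]
      refine Finset.sum_congr rfl fun a _ => ?_
      rw [Polynomial.eval_mul, Polynomial.eval_C, Polynomial.eval_pow, Polynomial.eval_X,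
        mul_assoc]
      congr 1
      rw [← Finset.mul_prod_erase univ _ (Finset.mem_univ i), mul_comm]
      congr 1
      · refine Finset.prod_congr rfl fun j hj => ?_
        have hji : j ≠ i := Finset.ne_of_mem_erase hj
        simp [ev, Function.update_of_ne hji]
      · simp [ev]
    have hQdeg : Q.degree < (d i : ℕ) := by
      refine lt_of_le_of_lt (Polynomial.degree_sum_le _ _) ?_
      rw [Finset.sup_lt_iff (by exact_mod_cast WithBot.bot_lt_coe _)]
      intro a _
      refine lt_of_le_of_lt (Polynomial.degree_C_mul_X_pow_le _ _) ?_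
      exact_mod_cast (a i).2
    let Z : Finset (T i) := univ.filter fun y =>
      ¬ (Function.update t i y ∈ S ∧ dir (Function.update t i y) = i)
    have hZcard : d i ≤ Z.card := by
      have h1 := hcount t htS
      have h2 := Finset.card_filter_add_card_filter_not (s := (univ : Finset (T i)))
        (fun y => Function.update t i y ∈ S ∧ dir (Function.update t i y) = i)
      rw [Finset.card_univ] at h2
      rw [← hi] at h1
      have h3 : Z.card = (univ.filter fun y : T i =>
        ¬ (Function.update t i y ∈ S ∧ dir (Function.update t i y) = i)).card := rfl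
      omega
    have hQzero : Q = 0 := by
      refine Polynomial.eq_zero_of_degree_lt_of_eval_finset_eq_zero (Z.image (e i)) ?_ ?_
      · rw [Finset.card_image_of_injective _ (he i)]
        exact lt_of_lt_of_le hQdeg (by exact_mod_cast hZcard)
      · intro x hx
        obtain ⟨y, hy, rfl⟩ := Finset.mem_image.1 hx
        rw [← hQeval]
        by_contra hne'
        have hyS : Function.update t i y ∈ S := by
          by_contra h
          exact hne' (hzS _ h)
        have hydir : dir (Function.update t i y) ≠ i := by
          intro h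
          have : ¬ (Function.update t i y ∈ S ∧ dir (Function.update t i y) = i) := by
            simpa [Z] using hy
          exact this ⟨hyS, h⟩
        have hlt := hkey t htS y hyS hydir
        have hle := htmin (Function.update t i y) (by simp [N, hne'])
        exact absurd hlt (not_lt.2 hle)
    have := hQeval (t i)
    rw [Function.update_eq_self, hQzero, Polynomial.eval_zero] at this
    exact htne this
  -- hence it is zero
  have hP : boxPoly z = 0 := by
    refine MvPolynomial.eq_zero_of_eval_zero_at_prod_finset (boxPoly z)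
      (fun i => univ.image (e i)) ?_ ?_
    · intro i
      rw [Finset.card_image_of_injective _ (he i), Finset.card_univ]
      exact lt_of_lt_of_le (boxPoly_degreeOf hd z i) (hdN i)
    · intro x hx
      choose t ht using fun i => Finset.mem_image.1 (hx i)
      have : x = ev t := by
        funext i
        exact (ht i).2.symm
      rw [this]
      exact hall t
  apply hz0
  funext a
  rw [← boxPoly_coeff z a, hP]
  simp

end GridCount

end Pool.Agent.Helper64
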