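import Mathlib

set_option autoImplicit false

namespace Pool.Agent.Helper64

open Finset

/-- The real number represented by the grid point `x`, that is `x / k`. -/
noncomputable def gridVal {k : ℕ} (x : Fin (k + 1)) : ℝ := (x : ℕ) / (k : ℝ)

/-- A deterministic direct mechanism for one item, `n` players and the value grid
`{0, 1/k, ..., 1}`: an allocation (`none` means no sale) and payments, individually rational and
without positive transfers. -/
structure Mechanism (n k : ℕ) where
  alloc : (Fin n → Fin (k + 1)) → Option (Fin n)
  pay : (Fin n → Fin (k + 1)) → Fin n → ℝ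
  rational : ∀ b i, pay b i ≤ if alloc b = some i then gridVal (b i) else 0
  nonneg : ∀ b i, 0 ≤ pay b i

namespace Mechanism

variable {n k : ℕ}

/-- The profit of player `i` with true value `x` when the bid profile is `b`. -/
noncomputable def profit (M : Mechanism n k) (b : Fin n → Fin (k + 1)) (i : Fin n)
    (x : Fin (k + 1)) : ℝ :=
  (if M.alloc b = some i then gridVal x else 0) - M.pay b i

/-- `α`-moral mechanisms: every positive gain from a misreport of `i` is at most `α` times the
total loss of the other players. -/
def Moral (M : Mechanism n k) (α : ℝ) : Prop :=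
  ∀ (v : Fin n → Fin (k + 1)) (i : Fin n) (x : Fin (k + 1)),
    0 < M.profit (Function.update v i x) i (v i) - M.profit v i (v i) →
    M.profit (Function.update v i x) i (v i) - M.profit v i (v i) ≤
      α * ∑ j ∈ univ.erase i,
        (M.profit v j (v j) - M.profit (Function.update v i x) j (v j))

/-- Dominant-strategy truthful mechanisms: no misreport gives a positive gain. -/
def Truthful (M : Mechanism n k) : Prop :=
  ∀ (v : Fin n → Fin (k + 1)) (i : Fin n) (x : Fin (k + 1)),
    M.profit (Function.update v i x) i (v i) ≤ M.profit v i (v i)

/-- Expected revenue under truthful reporting, the values being independent with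
`Pr[v i = x] = q i x`. -/
noncomputable def revenue (M : Mechanism n k) (q : Fin n → Fin (k + 1) → ℝ) : ℝ :=
  ∑ v : Fin n → Fin (k + 1), (∏ i, q i (v i)) * ∑ i, M.pay v i

end Mechanism

namespace Mechanism

variable {n k : ℕ}

/-- All revenues of truthful mechanisms, for independent values with `Pr[v i = x] = q i x`. -/
def truthfulRevenues (q : Fin n → Fin (k + 1) → ℝ) : Set ℝ :=
  {r | ∃ M : Mechanism n k, M.Truthful ∧ M.revenue q = r}

/-- All revenues of `α`-moral mechanisms, for independent values with `Pr[v i = x] = q i x`. -/
def moralRevenues (α : ℝ) (q : Fin n → Fin (k + 1) → ℝ) : Set ℝ :=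
  {r | ∃ M : Mechanism n k, M.Moral α ∧ M.revenue q = r}

end Mechanism

end Pool.Agent.Helper64
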