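import Mathlib
import Pool.Agent.Helper64.GridCount
import Pool.Agent.Helper64.MoralDefs

set_option autoImplicit false

namespace Pool.Agent.Helper64

open Finset

/-! ### Sums over blown-up grids -/

section Blow

variable {n k : ℕ}

/-- The blown-up type space of player `i`: `m i x` copies of each grid point `x`. -/
abbrev Blow (m : Fin n → Fin (k + 1) → ℕ) (i : Fin n) : Type := (x : Fin (k + 1)) × Fin (m i x)

/-- The underlying profile of grid points. -/
def proj {m : Fin n → Fin (k + 1) → ℕ} (t : ∀ i, Blow m i) : Fin n → Fin (k + 1) :=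
  fun i => (t i).1

theorem proj_update {m : Fin n → Fin (k + 1) → ℕ} (t : ∀ i, Blow m i) (i : Fin n) (y : Blow m i) :
    proj (Function.update t i y) = Function.update (proj t) i y.1 := by
  funext j
  by_cases h : j = i
  · subst h; simp [proj]
  · simp [proj, Function.update_of_ne h]

theorem card_fiber {m : Fin n → Fin (k + 1) → ℕ} (v : Fin n → Fin (k + 1)) :
    (univ.filter fun t : (∀ i, Blow m i) => proj t = v).card = ∏ i, m i (v i) := by
  have h1 : (univ.filter fun t : (∀ i, Blow m i) => proj t = v) =
      Fintype.piFinset (fun i => univ.filter fun y : Blow m i => y.1 = v i) := by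
    ext t
    simp only [mem_filter, mem_univ, true_and, Fintype.mem_piFinset]
    exact ⟨fun h i => congrFun h i, fun h => funext h⟩
  rw [h1, Fintype.card_piFinset]
  refine Finset.prod_congr rfl fun i _ => ?_
  have h2 : (univ.filter fun y : Blow m i => y.1 = v i) =
      (univ : Finset (Fin (m i (v i)))).map ⟨fun c => (⟨v i, c⟩ : Blow m i), by
        intro a b h; simpa using h⟩ := by
    ext ⟨x, c⟩
    simp only [mem_filter, mem_univ, true_and, mem_map]
    constructor
    · rintro rfl
      exact ⟨c, rfl⟩
    · rintro ⟨c', hc'⟩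
      exact (congrArg Sigma.fst hc').symm
  rw [h2, Finset.card_map, Finset.card_univ, Fintype.card_fin]

theorem sum_proj (m : Fin n → Fin (k + 1) → ℕ) (F : (Fin n → Fin (k + 1)) → ℝ) :
    ∑ t : (∀ i, Blow m i), F (proj t) = ∑ v, (∏ i, (m i (v i) : ℝ)) * F v := by
  rw [← Finset.sum_fiberwise univ (fun t : (∀ i, Blow m i) => proj t) (fun t => F (proj t))]
  refine Finset.sum_congr rfl fun v _ => ?_
  rw [Finset.sum_congr rfl (g := fun _ => F v)]
  · rw [Finset.sum_const, card_fiber, nsmul_eq_mul]
    push_cast
    rfl
  · intro t ht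
    rw [(Finset.mem_filter.1 ht).2]

theorem sum_update {T : Fin n → Type} [∀ i, Fintype (T i)] [∀ i, DecidableEq (T i)] (i : Fin n)
    (G : (∀ i, T i) → ℝ) :
    ∑ t : (∀ i, T i), ∑ y : T i, G (Function.update t i y) =
      (Fintype.card (T i) : ℝ) * ∑ t, G t := by
  calc ∑ t : (∀ i, T i), ∑ y : T i, G (Function.update t i y)
      = ∑ p : (∀ i, T i) × T i, G (Function.update p.1 i p.2) :=
        (Fintype.sum_prod_type' (fun t y => G (Function.update t i y))).symm
    _ = ∑ p : (∀ i, T i) × T i, G p.1 := by
        refine Finset.sum_bij' (fun p _ => (Function.update p.1 i p.2, p.1 i))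
          (fun p _ => (Function.update p.1 i p.2, p.1 i)) ?_ ?_ ?_ ?_ ?_ <;> simp
    _ = (Fintype.card (T i) : ℝ) * ∑ t, G t := by
        rw [Fintype.sum_prod_type]
        simp [Finset.mul_sum]

end Blow

/-! ### Lines, keys and the counting inequality -/

section Capture

variable {n k : ℕ}

/-- The sum of the values of the players other than `i`. -/
noncomputable def others (i : Fin n) (v : Fin n → Fin (k + 1)) : ℝ :=
  ∑ j ∈ univ.erase i, gridVal (v j)

theorem others_update (i : Fin n) (v : Fin n → Fin (k + 1)) (x : Fin (k + 1)) :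
    others i (Function.update v i x) = others i v := by
  unfold others
  refine Finset.sum_congr rfl fun j hj => ?_
  rw [Function.update_of_ne (Finset.ne_of_mem_erase hj)]

/-- The key of the line through `v` in direction `i` when the price on it is `pr i v`. -/
noncomputable def lineKey (pr : Fin n → (Fin n → Fin (k + 1)) → ℝ) (i : Fin n)
    (v : Fin n → Fin (k + 1)) : ℝ ×ₗ (ℝ ×ₗ Fin n) :=
  toLex (others i v + pr i v, toLex (others i v, i))

/-- The line in direction `i` claims the profile `v`. -/
def Cap (pr : Fin n → (Fin n → Fin (k + 1)) → ℝ) (v : Fin n → Fin (k + 1)) (i : Fin n) : Prop :=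
  pr i v ≤ gridVal (v i) ∧ ∀ j, j ≠ i → lineKey pr i v < lineKey pr j v

theorem Cap.unique {pr : Fin n → (Fin n → Fin (k + 1)) → ℝ} {v : Fin n → Fin (k + 1)}
    {i j : Fin n} (hi : Cap pr v i) (hj : Cap pr v j) : i = j := by
  by_contra h
  exact lt_asymm (hi.2 j (Ne.symm h)) (hj.2 i h)

theorem lineKey_update {pr : Fin n → (Fin n → Fin (k + 1)) → ℝ}
    (hpr : ∀ i v x, pr i (Function.update v i x) = pr i v) (i : Fin n) (v : Fin n → Fin (k + 1))
    (x : Fin (k + 1)) : lineKey pr i (Function.update v i x) = lineKey pr i v := by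
  unfold lineKey
  rw [others_update, hpr]

open Classical in
/-- The set of types of player `i` for which the line through `t` in direction `i` claims. -/
noncomputable def claimed {m : Fin n → Fin (k + 1) → ℕ}
    (pr : Fin n → (Fin n → Fin (k + 1)) → ℝ) (i : Fin n) (t : ∀ i, Blow m i) :
    Finset (Blow m i) :=
  univ.filter fun y => Cap pr (proj (Function.update t i y)) i

theorem claimed_update {m : Fin n → Fin (k + 1) → ℕ}
    (pr : Fin n → (Fin n → Fin (k + 1)) → ℝ) (i : Fin n) (t : ∀ i, Blow m i) (y : Blow m i) :
    claimed pr i (Function.update t i y) = claimed pr i t := by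
  unfold claimed
  ext z
  simp only [Finset.mem_filter, Function.update_idem]

/-- A subset of `A` of size `min A.card K`. -/
noncomputable def sel {α : Type*} (A : Finset α) (K : ℕ) : Finset α :=
  Classical.choose (Finset.exists_subset_card_eq (min_le_left A.card K))

theorem sel_subset {α : Type*} (A : Finset α) (K : ℕ) : sel A K ⊆ A :=
  (Classical.choose_spec (Finset.exists_subset_card_eq (min_le_left A.card K))).1

theorem sel_card {α : Type*} (A : Finset α) (K : ℕ) : (sel A K).card = min A.card K :=
  (Classical.choose_spec (Finset.exists_subset_card_eq (min_le_left A.card K))).2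

theorem border {m : Fin n → Fin (k + 1) → ℕ} (hm : ∀ i x, 0 < m i x)
    {pr : Fin n → (Fin n → Fin (k + 1)) → ℝ}
    (hpr : ∀ i v x, pr i (Function.update v i x) = pr i v) (K : Fin n → ℕ)
    (hK : ∀ i, K i ≤ Fintype.card (Blow m i)) :
    (∑ i, ∑ t : (∀ i, Blow m i),
        ((min (claimed pr i t).card (K i) : ℕ) : ℝ) / (Fintype.card (Blow m i) : ℝ)) +
      ∏ i, ((Fintype.card (Blow m i) - K i : ℕ) : ℝ) ≤
    ∏ i, (Fintype.card (Blow m i) : ℝ) := by
  classical
  rcases Nat.eq_zero_or_pos n with hn | hn
  · subst hn
    simp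
  have : NeZero n := ⟨hn.ne'⟩
  have hN : ∀ i, 0 < Fintype.card (Blow m i) := fun i =>
    Fintype.card_pos_iff.2 ⟨⟨0, ⟨0, hm i 0⟩⟩⟩
  let S : Finset (∀ i, Blow m i) := univ.filter fun t => ∃ i, t i ∈ sel (claimed pr i t) (K i)
  let dir : (∀ i, Blow m i) → Fin n := fun t =>
    if h : ∃ i, t i ∈ sel (claimed pr i t) (K i) then Classical.choose h else 0
  have hcap : ∀ (t : ∀ i, Blow m i) i, t i ∈ sel (claimed pr i t) (K i) → Cap pr (proj t) i := by
    intro t i h
    have := sel_subset _ _ h
    simpa [claimed] using this
  have hdir : ∀ t ∈ S, t (dir t) ∈ sel (claimed pr (dir t) t) (K (dir t)) := by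
    intro t ht
    have ht' : ∃ i, t i ∈ sel (claimed pr i t) (K i) := by simpa [S] using ht
    have : dir t = Classical.choose ht' := by simp only [dir]; rw [dif_pos ht']
    rw [this]
    exact Classical.choose_spec ht'
  have key := card_add_prod_le (T := fun i => Blow m i)
    (fun i => Fintype.card (Blow m i) - K i) (fun i => Nat.sub_le _ _) S dir
    (fun t => lineKey pr (dir t) (proj t)) ?_ ?_
  · -- count `S`
    have hScard : (S.card : ℝ) = ∑ i, ∑ t : (∀ i, Blow m i),
        ((min (claimed pr i t).card (K i) : ℕ) : ℝ) / (Fintype.card (Blow m i) : ℝ) := by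
      have h1 : (S.card : ℝ) = ∑ t : (∀ i, Blow m i), ∑ i,
          (if t i ∈ sel (claimed pr i t) (K i) then (1 : ℝ) else 0) := by
        rw [Finset.card_filter]
        push_cast
        refine Finset.sum_congr rfl fun t _ => ?_
        by_cases h : ∃ i, t i ∈ sel (claimed pr i t) (K i)
        · rw [if_pos h]
          obtain ⟨i, hi⟩ := h
          rw [Finset.sum_eq_single i, if_pos hi]
          · intro j _ hj
            rw [if_neg]
            intro h'
            exact hj ((hcap t j h').unique (hcap t i hi))
          · simp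
        · rw [if_neg h]
          push Not at h
          rw [Finset.sum_eq_zero]
          intro i _
          rw [if_neg (h i)]
      rw [h1, Finset.sum_comm]
      refine Finset.sum_congr rfl fun i _ => ?_
      have hNi : (Fintype.card (Blow m i) : ℝ) ≠ 0 := by
        exact_mod_cast (hN i).ne'
      rw [← Finset.sum_div, eq_div_iff hNi, mul_comm, ← sum_update i]
      refine Finset.sum_congr rfl fun t _ => ?_
      have h2 : ∀ y : Blow m i, (if (Function.update t i y) i ∈
          sel (claimed pr i (Function.update t i y)) (K i) then (1 : ℝ) else 0) =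
          if y ∈ sel (claimed pr i t) (K i) then 1 else 0 := by
        intro y
        rw [claimed_update, Function.update_self]
      rw [Finset.sum_congr rfl fun y _ => h2 y, Finset.sum_ite_mem, Finset.univ_inter,
        Finset.sum_const, sel_card]
      simp
    rw [← hScard]
    exact_mod_cast key
  · intro t ht y hy hne
    have h1 := hcap t _ (hdir t ht)
    have h2 := hcap _ _ (hdir _ hy)
    have h3 := h2.2 (dir t) (Ne.symm hne)
    refine lt_of_lt_of_eq h3 ?_
    rw [proj_update, lineKey_update hpr]
  · intro t ht
    have hsub : (univ.filter fun y : Blow m (dir t) => Function.update t (dir t) y ∈ S ∧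
        dir (Function.update t (dir t) y) = dir t) ⊆ sel (claimed pr (dir t) t) (K (dir t)) := by
      intro y hy
      obtain ⟨hyS, hyd⟩ := (Finset.mem_filter.1 hy).2
      have := hdir _ hyS
      rw [hyd, claimed_update, Function.update_self] at this
      exact this
    have h1 := Finset.card_le_card hsub
    rw [sel_card] at h1
    have h2 : min (claimed pr (dir t) t).card (K (dir t)) ≤ K (dir t) := min_le_right _ _
    have h3 := hK (dir t)
    omega

end Capture

end Pool.Agent.Helper64
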