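import Mathlib

set_option autoImplicit false

namespace Pool.Agent.Helper64

open Finset

section Threshold

variable {Y : Type*} [Fintype Y] (g : Y → ℕ) (k B : ℕ)

/-- The number of types whose grid index is at least `x`. -/
def tail (x : ℕ) : ℕ := (univ.filter fun y => x ≤ g y).card

/-- The profit curve with production cost `b / B` at the price `x / k`. -/
noncomputable def curve (b x : ℕ) : ℝ := ((x : ℝ) / k - (b : ℝ) / B) * (tail g x : ℝ)

theorem exists_threshold (b : ℕ) : ∃ x ∈ range (k + 2), ∀ x' ∈ range (k + 2),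
    curve g k B b x' ≤ curve g k B b x :=
  Finset.exists_max_image (range (k + 2)) (curve g k B b) ⟨0, by simp⟩

/-- A maximiser of the profit curve. -/
noncomputable def thr (b : ℕ) : ℕ := Classical.choose (exists_threshold g k B b)

theorem thr_le (b : ℕ) : thr g k B b ≤ k + 1 := by
  have := (Classical.choose_spec (exists_threshold g k B b)).1
  rw [Finset.mem_range] at this
  unfold thr
  omega

theorem curve_le (b x : ℕ) (hx : x ≤ k + 1) :
    curve g k B b x ≤ curve g k B b (thr g k B b) :=
  (Classical.choose_spec (exists_threshold g k B b)).2 x (by rw [Finset.mem_range]; omega)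

variable {g k B}

theorem tail_anti {x x' : ℕ} (h : x ≤ x') : tail g x' ≤ tail g x := by
  unfold tail
  refine Finset.card_le_card fun y hy => ?_
  simp only [mem_filter, mem_univ, true_and] at hy ⊢
  exact h.trans hy

theorem tail_top (hg : ∀ y, g y ≤ k) : tail g (k + 1) = 0 := by
  unfold tail
  rw [Finset.card_eq_zero, Finset.filter_eq_empty_iff]
  intro y _ h
  have := hg y
  omega

theorem tail_strict (hs : ∀ x ≤ k, ∃ y, g y = x) {x x' : ℕ} (h : x < x') (hx : x' ≤ k + 1) :
    tail g x' < tail g x := by
  unfold tail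
  apply Finset.card_lt_card
  rw [Finset.ssubset_iff_of_subset]
  · obtain ⟨y, hy⟩ := hs x (by omega)
    refine ⟨y, ?_, ?_⟩
    · simp [hy]
    · simp only [mem_filter, mem_univ, true_and, hy]
      omega
  · intro y hy
    simp only [mem_filter, mem_univ, true_and] at hy ⊢
    omega

/-- The optimal profit. -/
noncomputable def opt (g : Y → ℕ) (k B b : ℕ) : ℝ := curve g k B b (thr g k B b)

theorem opt_nonneg (hg : ∀ y, g y ≤ k) (b : ℕ) : 0 ≤ opt g k B b := by
  have := curve_le g k B b (k + 1) le_rfl
  unfold opt
  refine le_trans ?_ this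
  unfold curve
  rw [tail_top hg]
  simp

theorem opt_last (hk : 0 < k) (hB : 0 < B) (hg : ∀ y, g y ≤ k) : opt g k B B ≤ 0 := by
  unfold opt curve
  rcases Nat.lt_or_ge (thr g k B B) (k + 1) with h | h
  · apply mul_nonpos_of_nonpos_of_nonneg
    · have h1 : ((thr g k B B : ℕ) : ℝ) / k ≤ 1 := by
        rw [div_le_one (by exact_mod_cast hk)]
        exact_mod_cast Nat.lt_succ_iff.1 h
      have h2 : (B : ℝ) / B = 1 := div_self (by exact_mod_cast hB.ne')
      linarith
    · positivity
  · have h' : thr g k B B = k + 1 := le_antisymm (thr_le g k B B) h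
    rw [h', tail_top hg]
    simp

theorem opt_diff_le (b : ℕ) :
    opt g k B b - opt g k B (b + 1) ≤ (tail g (thr g k B b) : ℝ) / B := by
  have h := curve_le g k B (b + 1) (thr g k B b) (thr_le g k B b)
  unfold opt
  have h2 : curve g k B b (thr g k B b) - curve g k B (b + 1) (thr g k B b) =
      (tail g (thr g k B b) : ℝ) / B := by
    unfold curve
    push_cast
    ring
  linarith

theorem opt_diff_ge (b : ℕ) :
    (tail g (thr g k B (b + 1)) : ℝ) / B ≤ opt g k B b - opt g k B (b + 1) := by
  have h := curve_le g k B b (thr g k B (b + 1)) (thr_le g k B (b + 1))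
  unfold opt
  have h2 : curve g k B b (thr g k B (b + 1)) - curve g k B (b + 1) (thr g k B (b + 1)) =
      (tail g (thr g k B (b + 1)) : ℝ) / B := by
    unfold curve
    push_cast
    ring
  linarith

theorem tail_thr_anti (hB : 0 < B) : Antitone fun b => tail g (thr g k B b) := by
  apply antitone_nat_of_succ_le
  intro b
  have h1 := opt_diff_le (g := g) (k := k) (B := B) b
  have h2 := opt_diff_ge (g := g) (k := k) (B := B) b
  have h3 : (tail g (thr g k B (b + 1)) : ℝ) / B ≤ (tail g (thr g k B b) : ℝ) / B := h2.trans h1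
  have hB' : (0 : ℝ) < B := by exact_mod_cast hB
  rw [div_le_div_iff_of_pos_right hB'] at h3
  exact_mod_cast h3

theorem thr_mono (hB : 0 < B) (hs : ∀ x ≤ k, ∃ y, g y = x) : Monotone (thr g k B) := by
  intro b b' hbb'
  by_contra h
  push Not at h
  have h1 := tail_strict hs h (thr_le g k B b)
  have h2 := tail_thr_anti (g := g) (k := k) hB hbb'
  exact absurd h1 (not_lt.2 h2)

theorem opt_le_sum (hk : 0 < k) (hB : 0 < B) (hg : ∀ y, g y ≤ k) {a : ℕ} (ha : a ≤ B) :
    opt g k B a ≤ ∑ b ∈ Finset.Ico a B, (tail g (thr g k B b) : ℝ) / B := by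
  induction ha using Nat.decreasingInduction with
  | self => simpa using opt_last hk hB hg
  | of_succ j hj ih =>
    rw [Finset.sum_eq_sum_Ico_succ_bot hj]
    have := opt_diff_le (g := g) (k := k) (B := B) j
    linarith

theorem sum_le_opt (hg : ∀ y, g y ≤ k) {a c : ℕ} (hac : a ≤ c) :
    ∑ b ∈ Finset.Ico (a + 1) (c + 1), (tail g (thr g k B b) : ℝ) / B ≤ opt g k B a := by
  have : ∑ b ∈ Finset.Ico (a + 1) (c + 1), (tail g (thr g k B b) : ℝ) / B ≤
      opt g k B a - opt g k B c := by
    induction c, hac using Nat.le_induction with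
    | base => simp
    | succ c hac ih =>
      rw [Finset.sum_Ico_succ_top (by omega)]
      have := opt_diff_ge (g := g) (k := k) (B := B) c
      linarith
  have h2 := opt_nonneg (g := g) (B := B) hg c
  linarith

/-- The layer bound for the revenue extracted from a set of types by one price. -/
theorem price_mul_card_le (hk : 0 < k) (hB : 0 < B) (hg : ∀ y, g y ≤ k) (W : Finset Y) (p : ℝ)
    (hW : ∀ y ∈ W, p ≤ (g y : ℝ) / k) :
    p * W.card ≤ ∑ b ∈ range B, ((min W.card (tail g (thr g k B b)) : ℕ) : ℝ) / B := by
  classical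
  have hk' : (0 : ℝ) < k := by exact_mod_cast hk
  have hB' : (0 : ℝ) < B := by exact_mod_cast hB
  -- the bound at every level
  have hlevel : ∀ a : ℕ, p * W.card ≤ (a : ℝ) / B * W.card + opt g k B a := by
    intro a
    rcases W.eq_empty_or_nonempty with rfl | hne
    · simpa using opt_nonneg (g := g) (B := B) hg a
    rcases le_total p ((a : ℝ) / B) with hp | hp
    · have h1 : p * W.card ≤ (a : ℝ) / B * W.card :=
        mul_le_mul_of_nonneg_right hp (by positivity)
      have := opt_nonneg (g := g) (B := B) hg a
      linarith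
    · obtain ⟨y0, hy0, hmin⟩ := Finset.exists_min_image W g hne
      have h1 : W.card ≤ tail g (g y0) := by
        unfold tail
        refine Finset.card_le_card fun y hy => ?_
        simp only [mem_filter, mem_univ, true_and]
        exact hmin y hy
      have h2 := curve_le g k B a (g y0) (by have := hg y0; omega)
      have h3 : (p - (a : ℝ) / B) * W.card ≤ curve g k B a (g y0) := by
        unfold curve
        have h4 := hW y0 hy0
        have h5 : (W.card : ℝ) ≤ (tail g (g y0) : ℝ) := by exact_mod_cast h1
        exact mul_le_mul (by linarith) h5 (by positivity) (by linarith)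
      unfold opt
      linarith
  -- choose the level
  have hex : ∃ a, a = B ∨ tail g (thr g k B a) < W.card := ⟨B, Or.inl rfl⟩
  let a := Nat.find hex
  have haB : a ≤ B := Nat.find_min' hex (Or.inl rfl)
  have hlow : ∀ b < a, W.card ≤ tail g (thr g k B b) := by
    intro b hb
    have := Nat.find_min hex hb
    push Not at this
    exact this.2
  have hhigh : ∀ b, a ≤ b → b < B → tail g (thr g k B b) ≤ W.card := by
    intro b hab hbB
    rcases Nat.find_spec hex with h | h
    · have : a = B := h
      omega
    · exact (tail_thr_anti (g := g) (k := k) hB hab).trans h.le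
  have h1 := hlevel a
  have h2 := opt_le_sum hk hB hg haB
  rw [Finset.range_eq_Ico, ← Finset.sum_Ico_consecutive _ (Nat.zero_le a) haB]
  have h3 : ∑ b ∈ Finset.Ico 0 a, ((min W.card (tail g (thr g k B b)) : ℕ) : ℝ) / B =
      (a : ℝ) / B * W.card := by
    rw [Finset.sum_congr rfl (g := fun _ => (W.card : ℝ) / B)]
    · rw [Finset.sum_const, Nat.card_Ico, nsmul_eq_mul]
      simp only [Nat.sub_zero]
      ring
    · intro b hb
      rw [min_eq_left (hlow b (Finset.mem_Ico.1 hb).2)]
  have h4 : ∑ b ∈ Finset.Ico a B, ((min W.card (tail g (thr g k B b)) : ℕ) : ℝ) / B =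
      ∑ b ∈ Finset.Ico a B, (tail g (thr g k B b) : ℝ) / B := by
    refine Finset.sum_congr rfl fun b hb => ?_
    rw [min_eq_right (hhigh b (Finset.mem_Ico.1 hb).1 (Finset.mem_Ico.1 hb).2)]
  rw [h3, h4]
  linarith

/-- The discretised ironed virtual value: the number of levels whose threshold is at most `x`. -/
noncomputable def lev (g : Y → ℕ) (k B x : ℕ) : ℕ :=
  ((range B).filter fun b => thr g k B b ≤ x).card

theorem lt_lev_iff (hB : 0 < B) (hs : ∀ x ≤ k, ∃ y, g y = x) {b x : ℕ} :
    b < lev g k B x ↔ b < B ∧ thr g k B b ≤ x := by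
  have hmono := thr_mono (g := g) hB hs
  constructor
  · intro h
    have hlB : lev g k B x ≤ B := by
      unfold lev
      refine (Finset.card_filter_le _ _).trans ?_
      simp
    refine ⟨lt_of_lt_of_le h hlB, ?_⟩
    by_contra hcon
    push Not at hcon
    have hsub : ((range B).filter fun b => thr g k B b ≤ x) ⊆ range b := by
      intro b' hb'
      rw [Finset.mem_filter] at hb'
      rw [Finset.mem_range]
      by_contra hbb
      push Not at hbb
      have := hmono hbb
      omega
    have := Finset.card_le_card hsub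
    rw [Finset.card_range] at this
    unfold lev at h
    omega
  · rintro ⟨hbB, hb⟩
    have hsub : range (b + 1) ⊆ ((range B).filter fun b => thr g k B b ≤ x) := by
      intro b' hb'
      rw [Finset.mem_range] at hb'
      rw [Finset.mem_filter, Finset.mem_range]
      exact ⟨by omega, (hmono (by omega)).trans hb⟩
    have := Finset.card_le_card hsub
    rw [Finset.card_range] at this
    unfold lev
    omega

theorem lev_mono (g : Y → ℕ) (k B : ℕ) : Monotone (lev g k B) := by
  intro x x' h
  unfold lev
  refine Finset.card_le_card fun b hb => ?_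
  rw [Finset.mem_filter] at hb ⊢
  exact ⟨hb.1, hb.2.trans h⟩

/-- The revenue on one line of the truthful mechanism that sells at level `c + 1` or higher. -/
theorem sum_lev_le (hB : 0 < B) (hg : ∀ y, g y ≤ k) (hs : ∀ x ≤ k, ∃ y, g y = x) {c : ℕ}
    (hc : c < B) :
    ∑ y ∈ univ.filter (fun y => thr g k B c ≤ g y), (lev g k B (g y) : ℝ) / B ≤
      ((thr g k B c : ℕ) : ℝ) / k * tail g (thr g k B c) + (tail g (thr g k B c) : ℝ) / B := by
  classical
  have hmono := thr_mono (g := g) hB hs
  have hB' : (0 : ℝ) < B := by exact_mod_cast hB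
  set X := thr g k B c with hX
  have h1 : ∑ y ∈ univ.filter (fun y => X ≤ g y), (lev g k B (g y) : ℝ) / B =
      ∑ b ∈ range B, (tail g (max X (thr g k B b)) : ℝ) / B := by
    have : ∀ y : Y, (lev g k B (g y) : ℝ) / B =
        ∑ b ∈ range B, (if thr g k B b ≤ g y then (1 : ℝ) else 0) / B := by
      intro y
      unfold lev
      rw [← Finset.sum_div, Finset.sum_boole]
    rw [Finset.sum_congr rfl fun y _ => this y, Finset.sum_comm]
    refine Finset.sum_congr rfl fun b _ => ?_
    rw [← Finset.sum_div, Finset.sum_boole, Finset.filter_filter]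
    unfold tail
    congr 3
    ext y
    simp
  rw [h1, Finset.range_eq_Ico, ← Finset.sum_Ico_consecutive _ (Nat.zero_le (c + 1)) hc]
  have h2 : ∑ b ∈ Finset.Ico 0 (c + 1), (tail g (max X (thr g k B b)) : ℝ) / B =
      ((c : ℝ) + 1) / B * tail g X := by
    rw [Finset.sum_congr rfl (g := fun _ => (tail g X : ℝ) / B)]
    · rw [Finset.sum_const, Nat.card_Ico, nsmul_eq_mul, Nat.sub_zero]
      push_cast
      ring
    · intro b hb
      rw [max_eq_left]
      exact hmono (by have := (Finset.mem_Ico.1 hb).2; omega)
  have h3 : ∑ b ∈ Finset.Ico (c + 1) B, (tail g (max X (thr g k B b)) : ℝ) / B =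
      ∑ b ∈ Finset.Ico (c + 1) B, (tail g (thr g k B b) : ℝ) / B := by
    refine Finset.sum_congr rfl fun b hb => ?_
    rw [max_eq_right]
    exact hmono (by have := (Finset.mem_Ico.1 hb).1; omega)
  have h4 : ∑ b ∈ Finset.Ico (c + 1) B, (tail g (thr g k B b) : ℝ) / B ≤ opt g k B c := by
    have := sum_le_opt (g := g) (B := B) hg (a := c) (c := B - 1) (by omega)
    have hBB : B - 1 + 1 = B := by omega
    rwa [hBB] at this
  have h5 : opt g k B c = ((X : ℝ) / k - (c : ℝ) / B) * tail g X := rfl
  rw [h2, h3]
  rw [h5] at h4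
  have h6 : ((c : ℝ) + 1) / B * tail g X = (c : ℝ) / B * tail g X + (tail g X : ℝ) / B := by
    ring
  rw [h6]
  linarith

end Threshold

end Pool.Agent.Helper64
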