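import Mathlib
import Pool.Agent.Helper64.Auction
import Pool.Agent.Helper64.Threshold

set_option autoImplicit false

namespace Pool.Agent.Helper64

open Finset

variable {n k : ℕ}

/-! ### Threshold mechanisms -/

section ThresholdMechanism

theorem gridVal_mono {x y : Fin (k + 1)} (h : x ≤ y) : gridVal x ≤ gridVal y := by
  unfold gridVal
  have : ((x : ℕ) : ℝ) ≤ ((y : ℕ) : ℝ) := by exact_mod_cast h
  exact div_le_div_of_nonneg_right this (by positivity)

theorem gridVal_nonneg (x : Fin (k + 1)) : 0 ≤ gridVal x := by
  unfold gridVal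
  positivity

theorem gridVal_le_one (x : Fin (k + 1)) : gridVal x ≤ 1 := by
  unfold gridVal
  apply div_le_one_of_le₀ _ (by positivity)
  exact_mod_cast Nat.lt_succ_iff.1 x.2

/-- Monotone allocations. -/
def MonoAlloc (a : (Fin n → Fin (k + 1)) → Option (Fin n)) : Prop :=
  ∀ v i x, a v = some i → v i ≤ x → a (Function.update v i x) = some i

open Classical in
/-- The winning bids of `i` against the other bids in `v`. -/
noncomputable def winSet (a : (Fin n → Fin (k + 1)) → Option (Fin n)) (v : Fin n → Fin (k + 1))
    (i : Fin n) : Finset (Fin (k + 1)) :=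
  univ.filter fun x => a (Function.update v i x) = some i

/-- The least winning bid. -/
noncomputable def cut (a : (Fin n → Fin (k + 1)) → Option (Fin n)) (v : Fin n → Fin (k + 1))
    (i : Fin n) : Fin (k + 1) :=
  if h : (winSet a v i).Nonempty then (winSet a v i).min' h else 0

theorem winSet_update (a : (Fin n → Fin (k + 1)) → Option (Fin n)) (v : Fin n → Fin (k + 1))
    (i : Fin n) (x : Fin (k + 1)) : winSet a (Function.update v i x) i = winSet a v i := by
  unfold winSet
  simp only [Function.update_idem]

theorem cut_update (a : (Fin n → Fin (k + 1)) → Option (Fin n)) (v : Fin n → Fin (k + 1))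
    (i : Fin n) (x : Fin (k + 1)) : cut a (Function.update v i x) i = cut a v i := by
  unfold cut
  simp only [winSet_update]

theorem cut_le {a : (Fin n → Fin (k + 1)) → Option (Fin n)} {v : Fin n → Fin (k + 1)}
    {i : Fin n} {x : Fin (k + 1)} (h : a (Function.update v i x) = some i) : cut a v i ≤ x := by
  have hx : x ∈ winSet a v i := by simp [winSet, h]
  unfold cut
  rw [dif_pos ⟨x, hx⟩]
  exact Finset.min'_le _ _ hx

theorem cut_le_self {a : (Fin n → Fin (k + 1)) → Option (Fin n)} {v : Fin n → Fin (k + 1)}
    {i : Fin n} (h : a v = some i) : cut a v i ≤ v i :=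
  cut_le (by rwa [Function.update_eq_self])

theorem cut_mem {a : (Fin n → Fin (k + 1)) → Option (Fin n)} {v : Fin n → Fin (k + 1)}
    {i : Fin n} {x : Fin (k + 1)} (h : a (Function.update v i x) = some i) :
    a (Function.update v i (cut a v i)) = some i := by
  have hx : x ∈ winSet a v i := by simp [winSet, h]
  have := Finset.min'_mem (winSet a v i) ⟨x, hx⟩
  unfold cut
  rw [dif_pos ⟨x, hx⟩]
  simpa [winSet] using this

/-- The mechanism with allocation `a` in which the winner pays the least winning bid. -/
noncomputable def ofAlloc (a : (Fin n → Fin (k + 1)) → Option (Fin n)) : Mechanism n k where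
  alloc := a
  pay v i := if a v = some i then gridVal (cut a v i) else 0
  rational b i := by
    by_cases h : a b = some i
    · rw [if_pos h, if_pos h]
      exact gridVal_mono (cut_le_self h)
    · rw [if_neg h, if_neg h]
  nonneg b i := by
    split_ifs
    · exact gridVal_nonneg _
    · exact le_rfl

theorem ofAlloc_truthful {a : (Fin n → Fin (k + 1)) → Option (Fin n)} (ha : MonoAlloc a) :
    (ofAlloc a).Truthful := by
  intro v i x
  unfold Mechanism.profit ofAlloc
  simp only
  by_cases h : a (Function.update v i x) = some i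
  · rw [if_pos h, if_pos h, cut_update]
    by_cases h' : a v = some i
    · rw [if_pos h', if_pos h']
    · rw [if_neg h', if_neg h']
      have hlt : v i ≤ cut a v i := by
        by_contra hcon
        push Not at hcon
        have h1 := ha _ i (v i) (cut_mem h) (by rw [Function.update_self]; exact hcon.le)
        rw [Function.update_idem, Function.update_eq_self] at h1
        exact h' h1
      have := gridVal_mono hlt
      linarith
  · rw [if_neg h, if_neg h]
    by_cases h' : a v = some i
    · rw [if_pos h', if_pos h']
      have := gridVal_mono (cut_le_self h')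
      linarith
    · rw [if_neg h', if_neg h']

end ThresholdMechanism

/-! ### The level allocation -/

section LevelAllocation

variable (m : Fin n → Fin (k + 1) → ℕ)

/-- The grid index of a type. -/
def idx {m : Fin n → Fin (k + 1) → ℕ} (i : Fin n) (y : Blow m i) : ℕ := (y.1 : ℕ)

theorem idx_le {m : Fin n → Fin (k + 1) → ℕ} (i : Fin n) (y : Blow m i) : idx i y ≤ k :=
  Nat.lt_succ_iff.1 y.1.2

theorem idx_surj {m : Fin n → Fin (k + 1) → ℕ} (hm : ∀ i x, 0 < m i x) (i : Fin n) :
    ∀ x ≤ k, ∃ y : Blow m i, idx i y = x := by
  intro x hx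
  exact ⟨⟨⟨x, by omega⟩, ⟨0, hm i _⟩⟩, rfl⟩

/-- The level of the grid point `x` for player `i`. -/
noncomputable def level (B : ℕ) (i : Fin n) (x : Fin (k + 1)) : ℕ :=
  lev (idx (m := m) i) k B (x : ℕ)

/-- The level that player `i` needs in order to win against the others in `v`. -/
noncomputable def need (B : ℕ) (i : Fin n) (v : Fin n → Fin (k + 1)) : ℕ :=
  univ.sup fun j => if j = i then 1 else if j < i then level m B j (v j) + 1
    else level m B j (v j)

theorem need_update (B : ℕ) (i : Fin n) (v : Fin n → Fin (k + 1)) (x : Fin (k + 1)) :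
    need m B i (Function.update v i x) = need m B i v := by
  unfold need
  refine Finset.sup_congr rfl fun j _ => ?_
  by_cases h : j = i
  · simp [h]
  · simp [h]

theorem one_le_need (B : ℕ) (i : Fin n) (v : Fin n → Fin (k + 1)) : 1 ≤ need m B i v := by
  unfold need
  have := Finset.le_sup (f := fun j => if j = i then 1 else if j < i then level m B j (v j) + 1
    else level m B j (v j)) (Finset.mem_univ i)
  simpa using this

theorem need_le_iff (B : ℕ) (i : Fin n) (v : Fin n → Fin (k + 1)) (c : ℕ) :
    need m B i v ≤ c ↔ 1 ≤ c ∧ (∀ j < i, level m B j (v j) < c) ∧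
      (∀ j, i < j → level m B j (v j) ≤ c) := by
  unfold need
  rw [Finset.sup_le_iff]
  constructor
  · intro h
    refine ⟨by simpa using h i (mem_univ i), ?_, ?_⟩
    · intro j hj
      have := h j (mem_univ j)
      rw [if_neg hj.ne, if_pos hj] at this
      omega
    · intro j hj
      have := h j (mem_univ j)
      rwa [if_neg hj.ne', if_neg (not_lt.2 hj.le)] at this
  · rintro ⟨h1, h2, h3⟩ j _
    rcases lt_trichotomy j i with h | h | h
    · rw [if_neg h.ne, if_pos h]
      exact h2 j h
    · rw [if_pos h]
      exact h1
    · rw [if_neg h.ne', if_neg (not_lt.2 h.le)]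
      exact h3 j h

/-- Player `i` wins at `v`. -/
def Wins (B : ℕ) (v : Fin n → Fin (k + 1)) (i : Fin n) : Prop :=
  need m B i v ≤ level m B i (v i)

theorem Wins.unique {m : Fin n → Fin (k + 1) → ℕ} {B : ℕ} {v : Fin n → Fin (k + 1)}
    {i j : Fin n} (hi : Wins m B v i) (hj : Wins m B v j) : i = j := by
  unfold Wins at hi hj
  rw [need_le_iff] at hi hj
  rcases lt_trichotomy i j with h | h | h
  · have h1 := hj.2.1 i h
    have h2 := hi.2.2 j h
    omega
  · exact h
  · have h1 := hi.2.1 j h
    have h2 := hj.2.2 i h
    omega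

theorem exists_wins {m : Fin n → Fin (k + 1) → ℕ} {B : ℕ} {v : Fin n → Fin (k + 1)} {j : Fin n}
    (hj : 0 < level m B j (v j)) : ∃ i, Wins m B v i := by
  obtain ⟨i, -, hi⟩ := Finset.exists_max_image (univ : Finset (Fin n))
    (fun i => (toLex (level m B i (v i), OrderDual.toDual i) : ℕ ×ₗ (Fin n)ᵒᵈ)) ⟨j, mem_univ j⟩
  have hlex : ∀ l, level m B l (v l) < level m B i (v i) ∨
      (level m B l (v l) = level m B i (v i) ∧ i ≤ l) := by
    intro l
    have := hi l (mem_univ l)
    rw [Prod.Lex.toLex_le_toLex] at this
    simpa using this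
  refine ⟨i, ?_⟩
  unfold Wins
  rw [need_le_iff]
  refine ⟨?_, ?_, ?_⟩
  · rcases hlex j with h | h <;> omega
  · intro l hl
    rcases hlex l with h | h
    · exact h
    · exact absurd hl (not_lt.2 h.2)
  · intro l _
    rcases hlex l with h | h <;> omega

open Classical in
/-- The level allocation. -/
noncomputable def levelAlloc (B : ℕ) (v : Fin n → Fin (k + 1)) : Option (Fin n) :=
  if h : ∃ i, Wins m B v i then some (Classical.choose h) else none

theorem levelAlloc_eq_some {m : Fin n → Fin (k + 1) → ℕ} {B : ℕ} {v : Fin n → Fin (k + 1)}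
    {i : Fin n} : levelAlloc m B v = some i ↔ Wins m B v i := by
  unfold levelAlloc
  constructor
  · intro h
    by_cases h' : ∃ i, Wins m B v i
    · rw [dif_pos h', Option.some_inj] at h
      rw [← h]
      exact Classical.choose_spec h'
    · rw [dif_neg h'] at h
      exact absurd h (by simp)
  · intro h
    rw [dif_pos ⟨i, h⟩, Option.some_inj]
    exact (Classical.choose_spec (⟨i, h⟩ : ∃ i, Wins m B v i)).unique h

theorem level_mono (B : ℕ) (i : Fin n) {x y : Fin (k + 1)} (h : x ≤ y) :
    level m B i x ≤ level m B i y :=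
  lev_mono _ _ _ h

theorem levelAlloc_mono (B : ℕ) : MonoAlloc (levelAlloc m B : (Fin n → Fin (k + 1)) → _) := by
  intro v i x h hx
  rw [levelAlloc_eq_some] at h ⊢
  unfold Wins at h ⊢
  rw [need_update, Function.update_self]
  exact h.trans (level_mono m B i hx)

variable {m}

/-- The revenue bound on one line. -/
theorem line_bound (hm : ∀ i x, 0 < m i x) {B : ℕ} (hB : 0 < B) (i : Fin n)
    (v : Fin n → Fin (k + 1)) :
    ∑ y : Blow m i, (if levelAlloc m B (Function.update v i y.1) = some i then
        (level m B i y.1 : ℝ) / B else 0) ≤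
      ∑ y : Blow m i, (if levelAlloc m B (Function.update v i y.1) = some i then
        gridVal (cut (levelAlloc m B) v i) + 1 / B else 0) := by
  classical
  obtain ⟨c, hc⟩ : ∃ c, need m B i v = c + 1 := ⟨need m B i v - 1, by
    have := one_le_need m B i v
    omega⟩
  have hs := idx_surj hm i
  have hwin : ∀ x : Fin (k + 1), levelAlloc m B (Function.update v i x) = some i ↔
      c < B ∧ thr (idx (m := m) i) k B c ≤ (x : ℕ) := by
    intro x
    rw [levelAlloc_eq_some]
    unfold Wins
    rw [need_update, Function.update_self, hc, Nat.succ_le_iff]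
    exact lt_lev_iff hB hs
  rcases Nat.lt_or_ge c B with hcB | hcB
  · set X := thr (idx (m := m) i) k B c with hX
    have hfil : ∀ F : Blow m i → ℝ, ∑ y : Blow m i,
        (if levelAlloc m B (Function.update v i y.1) = some i then F y else 0) =
        ∑ y ∈ univ.filter (fun y : Blow m i => X ≤ idx i y), F y := by
      intro F
      rw [Finset.sum_filter]
      refine Finset.sum_congr rfl fun y _ => ?_
      by_cases h : X ≤ idx i y
      · rw [if_pos h, if_pos ((hwin y.1).2 ⟨hcB, h⟩)]
      · rw [if_neg h, if_neg]
        intro h'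
        exact h ((hwin y.1).1 h').2
    rw [hfil (fun y => (level m B i y.1 : ℝ) / B),
      hfil (fun _ => gridVal (cut (levelAlloc m B) v i) + 1 / B)]
    have h1 := sum_lev_le (g := idx (m := m) i) hB (idx_le i) hs hcB
    have h2 : ∑ y ∈ univ.filter (fun y : Blow m i => X ≤ idx i y), (level m B i y.1 : ℝ) / B =
        ∑ y ∈ univ.filter (fun y : Blow m i => thr (idx (m := m) i) k B c ≤ idx i y),
          (lev (idx (m := m) i) k B (idx i y) : ℝ) / B := rfl
    rw [h2]
    refine h1.trans ?_
    rw [Finset.sum_const, nsmul_eq_mul]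
    have h3 : (univ.filter fun y : Blow m i => X ≤ idx i y).card = tail (idx (m := m) i) X := rfl
    rw [h3, ← hX]
    rcases Nat.lt_or_ge X (k + 1) with hXk | hXk
    · have hcut : cut (levelAlloc m B) v i = ⟨X, hXk⟩ := by
        have hw : levelAlloc m B (Function.update v i (⟨X, hXk⟩ : Fin (k + 1))) = some i :=
          (hwin _).2 ⟨hcB, le_rfl⟩
        apply le_antisymm (cut_le hw)
        have := (hwin _).1 (cut_mem hw)
        exact this.2
      rw [hcut]
      unfold gridVal
      simp only
      have : ((X : ℝ) / k) * (tail (idx (m := m) i) X : ℝ) + (tail (idx (m := m) i) X : ℝ) / B =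
        (tail (idx (m := m) i) X : ℝ) * ((X : ℝ) / k + 1 / B) := by ring
      rw [this]
    · have hX' : X = k + 1 := le_antisymm (thr_le _ _ _ _) hXk
      rw [hX', tail_top (idx_le i)]
      simp
  · have : ∀ y : Blow m i, ¬ levelAlloc m B (Function.update v i y.1) = some i := by
      intro y h
      have := ((hwin y.1).1 h).1
      omega
    simp [this]

/-- The revenue of the level mechanism on the blown-up grid. -/
theorem level_sum_le (hm : ∀ i x, 0 < m i x) {B : ℕ} (hB : 0 < B) :
    ∑ t : (∀ i, Blow m i), ∑ i, (if levelAlloc m B (proj t) = some i then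
        (level m B i (t i).1 : ℝ) / B else 0) ≤
      ∑ t : (∀ i, Blow m i), (∑ i, (ofAlloc (levelAlloc m B)).pay (proj t) i + 1 / B) := by
  classical
  have hN : ∀ i, (0 : ℝ) < Fintype.card (Blow m i) := fun i => by
    exact_mod_cast Fintype.card_pos_iff.2 ⟨(⟨0, ⟨0, hm i 0⟩⟩ : Blow m i)⟩
  have h1 : ∑ t : (∀ i, Blow m i), ∑ i, (if levelAlloc m B (proj t) = some i then
        (level m B i (t i).1 : ℝ) / B else 0) ≤
      ∑ t : (∀ i, Blow m i), ∑ i, (if levelAlloc m B (proj t) = some i then
        gridVal (cut (levelAlloc m B) (proj t) i) + 1 / B else 0) := by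
    rw [Finset.sum_comm (s := (univ : Finset (∀ i, Blow m i))) (t := (univ : Finset (Fin n))),
      Finset.sum_comm (s := (univ : Finset (∀ i, Blow m i))) (t := (univ : Finset (Fin n)))]
    refine Finset.sum_le_sum fun i _ => ?_
    refine le_of_mul_le_mul_left ?_ (hN i)
    rw [← sum_update i, ← sum_update i]
    refine Finset.sum_le_sum fun t _ => ?_
    have h := line_bound hm hB i (proj t)
    simp only [proj_update, Function.update_self, cut_update]
    exact h
  refine h1.trans ?_
  refine Finset.sum_le_sum fun t _ => ?_
  have h2 : ∑ i, (if levelAlloc m B (proj t) = some i then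
        gridVal (cut (levelAlloc m B) (proj t) i) + 1 / B else 0) =
      ∑ i, (ofAlloc (levelAlloc m B)).pay (proj t) i +
        ∑ i, (if levelAlloc m B (proj t) = some i then (1 : ℝ) / B else 0) := by
    rw [← Finset.sum_add_distrib]
    refine Finset.sum_congr rfl fun i _ => ?_
    simp only [ofAlloc]
    split_ifs <;> simp
  rw [h2]
  have h3 : ∑ i, (if levelAlloc m B (proj t) = some i then (1 : ℝ) / B else 0) ≤ 1 / B := by
    by_cases h : ∃ i, levelAlloc m B (proj t) = some i
    · obtain ⟨i, hi⟩ := h
      rw [Finset.sum_eq_single i]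
      · rw [if_pos hi]
      · intro j _ hj
        rw [if_neg]
        intro h'
        rw [hi, Option.some_inj] at h'
        exact hj h'.symm
      · simp
    · push Not at h
      rw [Finset.sum_eq_zero]
      · positivity
      · intro i _
        rw [if_neg (h i)]
  linarith

/-- The product of the numbers of types below the thresholds. -/
theorem prod_below (θ : Fin n → ℕ) :
    ∏ i, (Fintype.card (Blow m i) - tail (idx (m := m) i) (θ i)) =
      (univ.filter fun t : (∀ i, Blow m i) => ∀ i, idx i (t i) < θ i).card := by
  classical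
  have h1 : (univ.filter fun t : (∀ i, Blow m i) => ∀ i, idx i (t i) < θ i) =
      Fintype.piFinset (fun i => univ.filter fun y : Blow m i => idx i y < θ i) := by
    ext t
    simp only [mem_filter, mem_univ, true_and, Fintype.mem_piFinset]
  rw [h1, Fintype.card_piFinset]
  refine Finset.prod_congr rfl fun i _ => ?_
  have h2 := Finset.card_filter_add_card_filter_not (s := (univ : Finset (Blow m i)))
    (fun y => θ i ≤ idx i y)
  rw [Finset.card_univ] at h2
  have h3 : (univ.filter fun y : Blow m i => ¬ θ i ≤ idx i y) =
      univ.filter fun y : Blow m i => idx i y < θ i := by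
    ext y
    simp
  rw [h3] at h2
  unfold tail
  omega

/-- The total of the layers is at most the total level of the winners. -/
theorem layers_le (hm : ∀ i x, 0 < m i x) {B : ℕ} (hB : 0 < B) :
    ∑ b ∈ range B, ((∏ i, (Fintype.card (Blow m i) : ℝ)) -
        ∏ i, ((Fintype.card (Blow m i) - tail (idx (m := m) i)
          (thr (idx (m := m) i) k B b) : ℕ) : ℝ)) / B ≤
      ∑ t : (∀ i, Blow m i), ∑ i, (if levelAlloc m B (proj t) = some i then
        (level m B i (t i).1 : ℝ) / B else 0) := by
  classical
  have h1 : ∀ b, (∏ i, (Fintype.card (Blow m i) : ℝ)) -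
        ∏ i, ((Fintype.card (Blow m i) - tail (idx (m := m) i)
          (thr (idx (m := m) i) k B b) : ℕ) : ℝ) =
      ∑ t : (∀ i, Blow m i),
        (if ∃ i, thr (idx (m := m) i) k B b ≤ idx i (t i) then (1 : ℝ) else 0) := by
    intro b
    have h2 := prod_below (m := m) (fun i => thr (idx (m := m) i) k B b)
    have h3 : ∏ i, (Fintype.card (Blow m i) : ℝ) =
        ((univ : Finset (∀ i, Blow m i)).card : ℝ) := by
      rw [Finset.card_univ, Fintype.card_pi]
      push_cast
      rfl
    rw [h3, ← Nat.cast_prod, h2, Finset.sum_boole]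
    have h4 := Finset.card_filter_add_card_filter_not (s := (univ : Finset (∀ i, Blow m i)))
      (fun t => ∃ i, thr (idx (m := m) i) k B b ≤ idx i (t i))
    have h5 : (univ.filter fun t : (∀ i, Blow m i) =>
        ¬ ∃ i, thr (idx (m := m) i) k B b ≤ idx i (t i)) =
        univ.filter fun t : (∀ i, Blow m i) => ∀ i, idx i (t i) < thr (idx (m := m) i) k B b := by
      ext t
      simp
    rw [h5] at h4
    rw [← h4]
    push_cast
    ring
  rw [Finset.sum_congr rfl fun b _ => by rw [h1 b], ← Finset.sum_div, Finset.sum_comm,
    Finset.sum_div]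
  refine Finset.sum_le_sum fun t _ => ?_
  have hBpos : (0 : ℝ) < B := by exact_mod_cast hB
  by_cases hex : ∃ j, 0 < level m B j ((proj t) j)
  · obtain ⟨j, hj⟩ := hex
    obtain ⟨w, hw⟩ := exists_wins hj
    have hw' : levelAlloc m B (proj t) = some w := levelAlloc_eq_some.2 hw
    rw [Finset.sum_eq_single w]
    · rw [if_pos hw']
      apply div_le_div_of_nonneg_right _ hBpos.le
      rw [Finset.sum_boole]
      have hsub : ((range B).filter fun b => ∃ i, thr (idx (m := m) i) k B b ≤ idx i (t i)) ⊆
          range (level m B w (t w).1) := by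
        intro b hb
        rw [Finset.mem_filter, Finset.mem_range] at hb
        obtain ⟨hbB, i, hi⟩ := hb
        rw [Finset.mem_range]
        have h6 : b < level m B i (t i).1 :=
          (lt_lev_iff hB (idx_surj hm i)).2 ⟨hbB, hi⟩
        unfold Wins at hw
        rw [need_le_iff] at hw
        rcases lt_trichotomy i w with h | h | h
        · have := hw.2.1 i h
          exact h6.trans this
        · rw [← h]
          exact h6
        · have := hw.2.2 i h
          exact lt_of_lt_of_le h6 this
      have := Finset.card_le_card hsub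
      rw [Finset.card_range] at this
      exact_mod_cast this
    · intro i _ hi
      rw [if_neg]
      intro h'
      rw [hw', Option.some_inj] at h'
      exact hi h'.symm
    · simp
  · push Not at hex
    have h7 : ∑ b ∈ range B, (if ∃ i, thr (idx (m := m) i) k B b ≤ idx i (t i) then (1 : ℝ)
        else 0) = 0 := by
      refine Finset.sum_eq_zero fun b hb => ?_
      rw [if_neg]
      rintro ⟨i, hi⟩
      have h6 : b < level m B i (t i).1 :=
        (lt_lev_iff hB (idx_surj hm i)).2 ⟨Finset.mem_range.1 hb, hi⟩
      have := hex i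
      have h8 : level m B i (t i).1 ≤ 0 := this
      omega
    rw [h7, zero_div]
    refine Finset.sum_nonneg fun i _ => ?_
    split_ifs <;> positivity

end LevelAllocation

end Pool.Agent.Helper64
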