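import Mathlib
import Pool.Agent.Helper64.Truthful

set_option autoImplicit false

namespace Pool.Agent.Helper64

open Finset

variable {n k : ℕ}

/-! ### The layered bound for a system of lines -/

theorem cap_sum_le {m : Fin n → Fin (k + 1) → ℕ} (hm : ∀ i x, 0 < m i x) (hk : 0 < k) {B : ℕ}
    (hB : 0 < B) {pr : Fin n → (Fin n → Fin (k + 1)) → ℝ}
    (hpr : ∀ i v x, pr i (Function.update v i x) = pr i v) :
    (∑ t : (∀ i, Blow m i), ∑ i, (open Classical in if Cap pr (proj t) i then pr i (proj t)
      else 0)) ≤
      ∑ b ∈ range B, ((∏ i, (Fintype.card (Blow m i) : ℝ)) -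
        ∏ i, ((Fintype.card (Blow m i) - tail (idx (m := m) i)
          (thr (idx (m := m) i) k B b) : ℕ) : ℝ)) / B := by
  classical
  have hN : ∀ i, (0 : ℝ) < Fintype.card (Blow m i) := fun i => by
    exact_mod_cast Fintype.card_pos_iff.2 ⟨(⟨0, ⟨0, hm i 0⟩⟩ : Blow m i)⟩
  have hBpos : (0 : ℝ) < B := by exact_mod_cast hB
  have h1 : ∀ i, ∑ t : (∀ i, Blow m i), (if Cap pr (proj t) i then pr i (proj t) else 0) ≤
      ∑ b ∈ range B, (∑ t : (∀ i, Blow m i),
        ((min (claimed pr i t).card (tail (idx (m := m) i) (thr (idx (m := m) i) k B b)) : ℕ) : ℝ)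
          / (Fintype.card (Blow m i) : ℝ)) / B := by
    intro i
    refine le_of_mul_le_mul_left ?_ (hN i)
    rw [← sum_update i]
    have h2 : ∀ t : (∀ i, Blow m i), ∑ y : Blow m i,
        (if Cap pr (proj (Function.update t i y)) i then pr i (proj (Function.update t i y))
          else 0) = pr i (proj t) * (claimed pr i t).card := by
      intro t
      have h3 : ∀ y : Blow m i, (if Cap pr (proj (Function.update t i y)) i then
          pr i (proj (Function.update t i y)) else 0) =
          if Cap pr (proj (Function.update t i y)) i then pr i (proj t) else 0 := by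
        intro y
        rw [proj_update, hpr]
      rw [Finset.sum_congr rfl fun y _ => h3 y, ← Finset.sum_filter, Finset.sum_const,
        nsmul_eq_mul, mul_comm]
      rfl
    rw [Finset.sum_congr rfl fun t _ => h2 t]
    have h4 : (Fintype.card (Blow m i) : ℝ) * ∑ b ∈ range B, (∑ t : (∀ i, Blow m i),
        ((min (claimed pr i t).card (tail (idx (m := m) i) (thr (idx (m := m) i) k B b)) : ℕ) : ℝ)
          / (Fintype.card (Blow m i) : ℝ)) / B =
        ∑ t : (∀ i, Blow m i), ∑ b ∈ range B,
        ((min (claimed pr i t).card (tail (idx (m := m) i) (thr (idx (m := m) i) k B b)) : ℕ) : ℝ)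
          / B := by
      rw [Finset.sum_comm, Finset.mul_sum]
      refine Finset.sum_congr rfl fun b _ => ?_
      rw [← Finset.sum_div, ← Finset.sum_div]
      have := (hN i).ne'
      field_simp
    rw [h4]
    refine Finset.sum_le_sum fun t _ => ?_
    refine price_mul_card_le hk hB (idx_le i) (claimed pr i t) (pr i (proj t)) ?_
    intro y hy
    have hy' : Cap pr (proj (Function.update t i y)) i := by simpa [claimed] using hy
    have := hy'.1
    rw [proj_update, hpr, Function.update_self] at this
    exact this
  rw [Finset.sum_comm (s := (univ : Finset (∀ i, Blow m i))) (t := (univ : Finset (Fin n)))]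
  refine (Finset.sum_le_sum fun i _ => h1 i).trans ?_
  rw [Finset.sum_comm]
  refine Finset.sum_le_sum fun b _ => ?_
  rw [← Finset.sum_div]
  apply div_le_div_of_nonneg_right _ hBpos.le
  have h5 := border hm hpr (fun i => tail (idx (m := m) i) (thr (idx (m := m) i) k B b))
    (fun i => by unfold tail; exact Finset.card_le_univ _)
  linarith

/-! ### Prices in a moral mechanism -/

namespace Mechanism

variable (M : Mechanism n k)

open Classical in
/-- The price that `i` faces against the other bids in `v` (`2` if `i` cannot win). -/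
noncomputable def price (i : Fin n) (v : Fin n → Fin (k + 1)) : ℝ :=
  if h : ∃ x, M.alloc (Function.update v i x) = some i then
    M.pay (Function.update v i (Classical.choose h)) i else 2

theorem price_update (i : Fin n) (v : Fin n → Fin (k + 1)) (x : Fin (k + 1)) :
    M.price i (Function.update v i x) = M.price i v := by
  unfold price
  simp only [Function.update_idem]

theorem price_nonneg (i : Fin n) (v : Fin n → Fin (k + 1)) : 0 ≤ M.price i v := by
  unfold price
  split_ifs
  · exact M.nonneg _ _
  · norm_num

theorem pay_eq_zero {v : Fin n → Fin (k + 1)} {j : Fin n} (h : M.alloc v ≠ some j) :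
    M.pay v j = 0 := by
  have h1 := M.rational v j
  rw [if_neg h] at h1
  exact le_antisymm h1 (M.nonneg v j)

theorem profit_eq_zero {v : Fin n → Fin (k + 1)} {j : Fin n} (h : M.alloc v ≠ some j)
    (x : Fin (k + 1)) : M.profit v j x = 0 := by
  unfold profit
  rw [if_neg h, M.pay_eq_zero h, sub_zero]

theorem profit_eq {v : Fin n → Fin (k + 1)} {j : Fin n} (h : M.alloc v = some j)
    (x : Fin (k + 1)) : M.profit v j x = gridVal x - M.pay v j := by
  unfold profit
  rw [if_pos h]

variable {M}

theorem pay_le_of_moral {α : ℝ} (hM : M.Moral α)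
    {v : Fin n → Fin (k + 1)} {i : Fin n} {x : Fin (k + 1)} (h : M.alloc v = some i)
    (h' : M.alloc (Function.update v i x) = some i) :
    M.pay v i ≤ M.pay (Function.update v i x) i := by
  by_contra hcon
  push Not at hcon
  have h1 := hM v i x
  rw [M.profit_eq h, M.profit_eq h'] at h1
  have h2 := h1 (by linarith)
  have h3 : ∑ j ∈ univ.erase i, (M.profit v j (v j) - M.profit (Function.update v i x) j (v j))
      = 0 := by
    refine Finset.sum_eq_zero fun j hj => ?_
    have hji : j ≠ i := Finset.ne_of_mem_erase hj
    rw [M.profit_eq_zero, M.profit_eq_zero, sub_zero]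
    · rw [h']
      intro h4
      exact hji (Option.some_inj.1 h4).symm
    · rw [h]
      intro h4
      exact hji (Option.some_inj.1 h4).symm
  rw [h3, mul_zero] at h2
  linarith

theorem price_eq_pay {α : ℝ} (hM : M.Moral α)
    {v : Fin n → Fin (k + 1)} {i : Fin n} (h : M.alloc v = some i) :
    M.price i v = M.pay v i := by
  have hex : ∃ x, M.alloc (Function.update v i x) = some i :=
    ⟨v i, by rwa [Function.update_eq_self]⟩
  unfold price
  rw [dif_pos hex]
  have hu := Classical.choose_spec hex
  apply le_antisymm
  · have := pay_le_of_moral hM (x := v i) hu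
      (by rwa [Function.update_idem, Function.update_eq_self])
    rwa [Function.update_idem, Function.update_eq_self] at this
  · exact pay_le_of_moral hM h hu

theorem margin_nonneg {α : ℝ} (hM : M.Moral α)
    {v : Fin n → Fin (k + 1)} {w : Fin n} (h : M.alloc v = some w) :
    M.price w v ≤ gridVal (v w) := by
  rw [price_eq_pay hM h]
  have := M.rational v w
  rwa [if_pos h] at this

theorem margin_le {α : ℝ} (hα1 : α ≤ 1) (hM : M.Moral α)
    {v : Fin n → Fin (k + 1)} {w : Fin n} (h : M.alloc v = some w) (i : Fin n) :
    gridVal (v i) - M.price i v ≤ gridVal (v w) - M.price w v := by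
  have hw := margin_nonneg hM h
  by_cases hiw : i = w
  · rw [hiw]
  by_cases hex : ∃ x, M.alloc (Function.update v i x) = some i
  · obtain ⟨x, hx⟩ := hex
    have hpx : M.price i v = M.pay (Function.update v i x) i := by
      rw [← price_eq_pay hM hx, price_update]
    have hne : M.alloc v ≠ some i := by
      rw [h]
      intro h4
      exact hiw (Option.some_inj.1 h4).symm
    by_contra hcon
    push Not at hcon
    have h1 := hM v i x
    rw [M.profit_eq hx, M.profit_eq_zero hne, sub_zero, ← hpx] at h1
    have h2 := h1 (by linarith)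
    have h3 : ∑ j ∈ univ.erase i, (M.profit v j (v j) -
        M.profit (Function.update v i x) j (v j)) = gridVal (v w) - M.price w v := by
      rw [Finset.sum_eq_single w]
      · rw [M.profit_eq h, M.profit_eq_zero, sub_zero, price_eq_pay hM h]
        rw [hx]
        intro h4
        exact hiw (Option.some_inj.1 h4)
      · intro j hj hjw
        have hji : j ≠ i := Finset.ne_of_mem_erase hj
        rw [M.profit_eq_zero, M.profit_eq_zero, sub_zero]
        · rw [hx]
          intro h4
          exact hji (Option.some_inj.1 h4).symm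
        · rw [h]
          intro h4
          exact hjw (Option.some_inj.1 h4).symm
      · intro hnot
        exact absurd (Finset.mem_erase.2 ⟨fun h4 => hiw h4.symm, mem_univ w⟩) hnot
    rw [h3] at h2
    have h5 : α * (gridVal (v w) - M.price w v) ≤ 1 * (gridVal (v w) - M.price w v) :=
      mul_le_mul_of_nonneg_right hα1 (by linarith)
    linarith
  · have : M.price i v = 2 := by
      unfold price
      rw [dif_neg hex]
    rw [this]
    have := gridVal_le_one (v i)
    linarith

theorem others_eq (i : Fin n) (v : Fin n → Fin (k + 1)) :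
    others i v = (∑ j, gridVal (v j)) - gridVal (v i) := by
  unfold others
  rw [← Finset.add_sum_erase univ _ (mem_univ i)]
  ring

open Classical in
/-- The revenue of a moral mechanism at a profile is at most the price of the claiming line. -/
theorem pay_le_cap {α : ℝ} (hα1 : α ≤ 1) (hM : M.Moral α)
    (v : Fin n → Fin (k + 1)) :
    ∑ i, M.pay v i ≤ ∑ i, (if Cap M.price v i then M.price i v else 0) := by
  have hnn : ∀ i ∈ (univ : Finset (Fin n)), 0 ≤ (if Cap M.price v i then M.price i v else 0) := by
    intro i _
    split_ifs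
    · exact M.price_nonneg i v
    · exact le_rfl
  by_cases hex : ∃ w, M.alloc v = some w
  · obtain ⟨w, hw⟩ := hex
    have h1 : ∑ i, M.pay v i = M.price w v := by
      rw [Finset.sum_eq_single w, price_eq_pay hM hw]
      · intro j _ hj
        apply M.pay_eq_zero
        rw [hw]
        intro h4
        exact hj (Option.some_inj.1 h4).symm
      · simp
    obtain ⟨i, -, hi⟩ := Finset.exists_min_image (univ : Finset (Fin n))
      (fun i => lineKey M.price i v) ⟨w, mem_univ w⟩
    have hne : ∀ j, j ≠ i → lineKey M.price i v < lineKey M.price j v := by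
      intro j hj
      refine lt_of_le_of_ne (hi j (mem_univ j)) ?_
      intro h4
      unfold lineKey at h4
      have h5 := congrArg (fun p => (ofLex (ofLex p).2).2) h4
      exact hj h5.symm
    have hiw := hi w (mem_univ w)
    unfold lineKey at hiw
    rw [Prod.Lex.toLex_le_toLex, Prod.Lex.toLex_le_toLex] at hiw
    simp only [others_eq] at hiw
    have hm1 := margin_le hα1 hM hw i
    have hm2 := margin_nonneg hM hw
    have hkey : M.price i v ≤ gridVal (v i) ∧ M.price w v ≤ M.price i v := by
      rcases hiw with h | ⟨h, h'⟩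
      · exfalso
        linarith
      · rcases h' with h' | ⟨h', -⟩
        · constructor <;> linarith
        · constructor <;> linarith
    have hcap : Cap M.price v i := ⟨hkey.1, hne⟩
    rw [h1]
    refine hkey.2.trans ?_
    have := Finset.single_le_sum hnn (mem_univ i)
    rwa [if_pos hcap] at this
  · push Not at hex
    rw [Finset.sum_eq_zero fun i _ => M.pay_eq_zero (hex i)]
    exact Finset.sum_nonneg hnn

/-! ### Integer weights -/

theorem revenue_le_level {α : ℝ} (hα1 : α ≤ 1) (hM : M.Moral α) (hk : 0 < k)
    {m : Fin n → Fin (k + 1) → ℕ} (hm : ∀ i x, 0 < m i x) {B : ℕ} (hB : 0 < B) :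
    M.revenue (fun i x => (m i x : ℝ)) ≤
      (ofAlloc (levelAlloc m B)).revenue (fun i x => (m i x : ℝ)) +
        (∑ v : Fin n → Fin (k + 1), ∏ i, (m i (v i) : ℝ)) / B := by
  classical
  have h1 : M.revenue (fun i x => (m i x : ℝ)) =
      ∑ t : (∀ i, Blow m i), ∑ i, M.pay (proj t) i := by
    unfold revenue
    rw [sum_proj m (fun v => ∑ i, M.pay v i)]
  have h2 : ∑ t : (∀ i, Blow m i), (∑ i, (ofAlloc (levelAlloc m B)).pay (proj t) i + 1 / B) =
      (ofAlloc (levelAlloc m B)).revenue (fun i x => (m i x : ℝ)) +
        (∑ v : Fin n → Fin (k + 1), ∏ i, (m i (v i) : ℝ)) / B := by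
    unfold revenue
    rw [sum_proj m (fun v => ∑ i, (ofAlloc (levelAlloc m B)).pay v i + 1 / B),
      Finset.sum_div, ← Finset.sum_add_distrib]
    refine Finset.sum_congr rfl fun v _ => ?_
    ring
  rw [h1, ← h2]
  refine le_trans (Finset.sum_le_sum fun t _ => pay_le_cap hα1 hM (proj t)) ?_
  exact (cap_sum_le hm hk hB M.price_update).trans ((layers_le hm hB).trans (level_sum_le hm hB))

theorem revenue_continuous (M : Mechanism n k) : Continuous M.revenue := by
  unfold revenue
  fun_prop

theorem revenue_scale (M : Mechanism n k) (w : Fin n → Fin (k + 1) → ℝ) (L : ℝ) :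
    M.revenue (fun i x => w i x / L) = M.revenue w / L ^ n := by
  unfold revenue
  rw [Finset.sum_div]
  refine Finset.sum_congr rfl fun v _ => ?_
  rw [Finset.prod_div_distrib]
  simp only [Finset.prod_const, Finset.card_univ, Fintype.card_fin]
  ring

end Mechanism

open Classical in
/-- The monotone allocations. -/
noncomputable def monoAllocs (n k : ℕ) : Finset ((Fin n → Fin (k + 1)) → Option (Fin n)) :=
  univ.filter MonoAlloc

theorem monoAllocs_nonempty (n k : ℕ) : (monoAllocs n k).Nonempty := by
  refine ⟨fun _ => none, ?_⟩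
  unfold monoAllocs
  simp only [mem_filter, mem_univ, true_and]
  intro v i x h
  exact absurd h (by simp)

/-- The best revenue of a threshold mechanism. -/
noncomputable def best (n k : ℕ) (w : Fin n → Fin (k + 1) → ℝ) : ℝ :=
  (monoAllocs n k).sup' (monoAllocs_nonempty n k) fun a => (ofAlloc a).revenue w

theorem best_continuous (n k : ℕ) : Continuous (best n k) := by
  unfold best
  exact Continuous.finset_sup'_apply _ fun a _ => (ofAlloc a).revenue_continuous

theorem le_best {a : (Fin n → Fin (k + 1)) → Option (Fin n)} (ha : MonoAlloc a)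
    (w : Fin n → Fin (k + 1) → ℝ) : (ofAlloc a).revenue w ≤ best n k w := by
  unfold best
  refine Finset.le_sup' (fun a => (ofAlloc a).revenue w) ?_
  unfold monoAllocs
  simp [ha]

theorem exists_best (w : Fin n → Fin (k + 1) → ℝ) :
    ∃ a : (Fin n → Fin (k + 1)) → Option (Fin n), MonoAlloc a ∧
      best n k w = (ofAlloc a).revenue w := by
  obtain ⟨a, ha, h⟩ := Finset.exists_mem_eq_sup' (monoAllocs_nonempty n k)
    (fun a => (ofAlloc a).revenue w)
  refine ⟨a, ?_, h⟩
  unfold monoAllocs at ha
  simpa using ha

theorem revenue_le_best_nat {M : Mechanism n k} {α : ℝ} (hα1 : α ≤ 1) (hM : M.Moral α)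
    (hk : 0 < k) {m : Fin n → Fin (k + 1) → ℕ} (hm : ∀ i x, 0 < m i x) :
    M.revenue (fun i x => (m i x : ℝ)) ≤ best n k (fun i x => (m i x : ℝ)) := by
  set C := ∑ v : Fin n → Fin (k + 1), ∏ i, (m i (v i) : ℝ) with hC
  have hC0 : 0 ≤ C := Finset.sum_nonneg fun v _ => Finset.prod_nonneg fun i _ => by positivity
  refine le_of_forall_pos_le_add fun ε hε => ?_
  obtain ⟨B, hB⟩ := exists_nat_gt (C / ε)
  have hBpos : (0 : ℝ) < B := lt_of_le_of_lt (div_nonneg hC0 hε.le) hB
  have hB' : 0 < B := by exact_mod_cast hBpos
  have h1 := Mechanism.revenue_le_level hα1 hM hk hm hB'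
  have h2 := le_best (levelAlloc_mono m B) (fun i x => (m i x : ℝ))
  have h3 : C / B ≤ ε := by
    rw [div_le_iff₀ hBpos]
    rw [div_lt_iff₀ hε] at hB
    linarith
  linarith

theorem revenue_le_best {M : Mechanism n k} {α : ℝ} (hα1 : α ≤ 1) (hM : M.Moral α)
    (hk : 0 < k) {q : Fin n → Fin (k + 1) → ℝ} (hq : ∀ i x, 0 < q i x) :
    M.revenue q ≤ best n k q := by
  let w : ℕ → Fin n → Fin (k + 1) → ℝ := fun L i x => ((⌈q i x * L⌉₊ : ℕ) : ℝ) / L
  have hw : Filter.Tendsto w Filter.atTop (nhds q) := by
    rw [tendsto_pi_nhds]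
    intro i
    rw [tendsto_pi_nhds]
    intro x
    exact (tendsto_nat_ceil_mul_div_atTop (hq i x).le).comp tendsto_natCast_atTop_atTop
  refine le_of_tendsto_of_tendsto ((M.revenue_continuous.tendsto q).comp hw)
    (((best_continuous n k).tendsto q).comp hw) ?_
  filter_upwards [Filter.eventually_gt_atTop 0] with L hL
  have hLr : (0 : ℝ) < L := by exact_mod_cast hL
  have hm : ∀ i x, 0 < ⌈q i x * L⌉₊ := by
    intro i x
    rw [Nat.ceil_pos]
    exact mul_pos (hq i x) hLr
  have h1 := revenue_le_best_nat hα1 hM hk hm
  obtain ⟨a, ha, hbest⟩ := exists_best (n := n) (k := k)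
    (fun i x => ((⌈q i x * L⌉₊ : ℕ) : ℝ))
  rw [hbest] at h1
  have h2 : M.revenue (w L) ≤ (ofAlloc a).revenue (w L) := by
    simp only [w]
    rw [Mechanism.revenue_scale, Mechanism.revenue_scale]
    exact div_le_div_of_nonneg_right h1 (by positivity)
  exact h2.trans (le_best ha _)

theorem Mechanism.Truthful.moral {M : Mechanism n k} (hM : M.Truthful) (α : ℝ) : M.Moral α := by
  intro v i x h
  have := hM v i x
  linarith

end Pool.Agent.Helper64
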